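import Pool.Agent.TH232.WX.Lim

set_option autoImplicit false

/-! Half-planes: bridges, exits and arcs. -/

namespace Pool.Agent.TH232.WX

open H978R2.Hex H978R3.Wedge Pool.Agent.TH232.Hex Complex Filter Topology

/-- decay of the weighted far mass in any domain containing a truncated wedge -/
theorem G_decay {J : ℕ} (hJ : 3 ≤ J) (hJ6 : J ≤ 6) (N : ℤ) (hN : 1 ≤ N) {p : Par} (hp : Ok p)
    (hw : WP J p) (hsub : ∀ v, Om (xPar J N) v → Om p v) (S : Finset V)
    (hS : ∀ v, Om p v → v ∈ S) (n : ℕ) (hn : S.card ≤ n) :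
    Gp J p n ≤ cL J * cst J * (N : ℝ) ^ (-th J) := by
  obtain ⟨i, h1, h2⟩ := scaleJ hJ hJ6 N hN
  have hin : ∀ v, Om (domJ J i) v → v ∈ S := fun v hv => hS v (hsub v (h2 v hv))
  have hpsi : ∀ m : ℕ, m ≤ i → Psi J (domJ J m) n ≤ gJ J ^ m * Cv J := by
    intro m
    induction m with
    | zero =>
      intro _
      rw [pow_zero, one_mul]
      have h1 := G_le_one hJ hJ6 (good_domJ hJ6 0).ok (wp_domJ hJ6 0) S
        (fun v hv => hin v (om_domJ hJ6 (Nat.zero_le i) v hv)) n hn
      have h2 := Psi_le_G hJ hJ6 (domJ J 0) n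
      have h3 : 0 < Cv J := by unfold Cv; split_ifs <;> norm_num
      nlinarith
    | succ m ih =>
      intro hm
      have h1 := ih (by omega)
      have h2 := sweep_up hJ hJ6 (good_domJ hJ6 m) (wp_domJ hJ6 m) S
        (fun v hv => hin v (om_domJ hJ6 (i := m + 1) (by omega) v hv)) n hn
      calc Psi J (domJ J (m + 1)) n ≤ gJ J * Psi J (domJ J m) n := h2
        _ ≤ gJ J * (gJ J ^ m * Cv J) := mul_le_mul_of_nonneg_left h1 (gJ_pos J).le
        _ = _ := by rw [pow_succ]; ring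
  have h3 := hpsi i le_rfl
  have h4 := G_le_Psi hJ hJ6 (domJ J i) n
  have h5 := G_anti hJ hJ6 (good_domJ hJ6 i).ok hp (wp_domJ hJ6 i) hw
    (fun v hv => hsub v (h2 v hv)) S hS n hn
  have hN1 : (1 : ℝ) ≤ N := by exact_mod_cast hN
  have h6 := pow_bound J hJ hJ6 N hN1 i h1
  have hg := gJ_pos J
  have c1 := cL_pos J
  have c2 := cv_pos J
  have hNp : 0 < (N : ℝ) ^ (th J) := Real.rpow_pos_of_pos (by linarith) _
  have ht : 0 < tJ J := by unfold tJ; split_ifs <;> norm_num
  have hC : 0 < Cv J := by unfold Cv; split_ifs <;> norm_num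
  have h7 : Gp J p n ≤ Cv J / cv J * gJ J ^ i := by
    rw [div_mul_eq_mul_div, le_div_iff₀ c2]
    calc Gp J p n * cv J ≤ Gp J (domJ J i) n * cv J := mul_le_mul_of_nonneg_right h5 c2.le
      _ ≤ _ := by linarith
  rw [Real.rpow_neg (by linarith), ← div_eq_mul_inv, le_div_iff₀ hNp]
  calc Gp J p n * (N : ℝ) ^ (th J)
      ≤ (Cv J / cv J * gJ J ^ i) * (tJ J * (1 / gJ J) ^ (i + 1)) := by
        apply mul_le_mul h7 h6 hNp.le
        positivity
    _ = Cv J / cv J * tJ J * (1 / gJ J) := by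
        rw [pow_succ, one_div, inv_pow]
        field_simp
    _ ≤ cL J * cst J := by
        interval_cases J <;> norm_num [Cv, cL, cv, tJ, gJ, cst]

/-- a far mass is at most the weighted far mass -/
theorem mass_le_G {J : ℕ} (hJ : 3 ≤ J) (hJ6 : J ≤ 6) (p : Par) (n : ℕ) (k : ℤ) (hk : -3 ≤ k)
    (hk2 : k ≤ (J : ℤ) - 4) : cL J * Mass (Om p) n k ≤ Gp J p n := by
  have h1 : F 1 (lB J) k * Mass (Om p) n k ≤ Gp J p n := by
    unfold Gp
    refine Finset.single_le_sum (f := fun k => F 1 (lB J) k * Mass (Om p) n k) ?_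
      (Finset.mem_Icc.2 ⟨hk, hk2⟩)
    intro k hk
    rw [Finset.mem_Icc] at hk
    exact mul_nonneg ((cL_pos J).le.trans (cmpJ J hJ hJ6 k hk.1 hk.2).1) (mass_nonneg _ _ _)
  have h2 := mul_le_mul_of_nonneg_right (cmpJ J hJ hJ6 k hk hk2).1 (mass_nonneg (Om p) n k)
  linarith

/-! ### strips -/

/-- the domain of height `T` and width of order `L` -/
def pTL (T L : ℤ) : Par :=
  { hexPar L with
    a4 := 2
    c3 := 1
    R := 0
    Q := T }

theorem ok_TL (T L : ℤ) (hT : 1 ≤ T) (hL : 1 ≤ L) : Ok (pTL T L) := by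
  constructor <;> simp only [pTL, hexPar] <;> omega

theorem wp_TL (T L : ℤ) : WP 5 (pTL T L) :=
  ⟨rfl, rfl, fun _ => rfl, fun h => by omega, fun h => by omega⟩

theorem TL_mass (T L : ℤ) (hT : 1 ≤ T) (hL : T ≤ L) (n : ℕ) (hn : 12 * L ^ 2 ≤ n) :
    Mass (Om (pTL T L)) n (-1) ≤ 7 / 2 * (T : ℝ) ^ (-(23 / 200) : ℝ) := by
  have h := G_decay (J := 5) (by norm_num) (by norm_num) T hT (ok_TL T L hT (by omega))
    (wp_TL T L) ?_ (Finset.Icc (-2 * L + 1) (2 * L) ×ˢ Finset.Icc (-L) L) ?_ n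
    (w_card L (by omega) n hn)
  · have h2 := mass_le_G (J := 5) (by norm_num) (by norm_num) (pTL T L) n (-1) (by norm_num)
      (by norm_num)
    have e1 : cst 5 = 7 / 2 := by norm_num [cst]
    have e2 : th 5 = 23 / 200 := by norm_num [th]
    rw [e1, e2] at h
    have c := cL_pos 5
    have h3 := h2.trans h
    rw [mul_assoc] at h3
    exact le_of_mul_le_mul_left h3 c
  · intro v hv
    obtain ⟨o1, o2, o3, o4, o5, o6, o7⟩ := hv
    unfold xPar hexPar at o1 o2 o3 o4 o5 o7
    norm_num at o1 o2 o3 o4 o5 o7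
    unfold Om pTL hexPar
    simp only
    omega
  · intro v hv
    obtain ⟨o1, o2, o3, o4, o5, o6, o7⟩ := hv
    unfold pTL hexPar at o1 o2 o3 o4 o5 o7
    simp only at o1 o2 o3 o4 o5 o7
    rw [Finset.mem_product, Finset.mem_Icc, Finset.mem_Icc]
    rcases lt_trichotomy v.2 0 with c | c | c <;> omega

/-- walks which leave the strip through the bottom -/
theorem TL_count (T L : ℤ) (hT : 1 ≤ T) (hL : T ≤ L) (m : ℕ) :
    Set.ncard {f : Fin (m + 2) → V | f ∈ WalkSet (Om (pTL T L)) m ∧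
      (f (Fin.last (m + 1))).2 < -T} ≤ (Land (Om (pTL T L)) m (-1)).card := by
  rw [← Set.ncard_coe_finset]
  apply Set.ncard_le_ncard_of_injOn rl
  · rintro f ⟨hf, hlast⟩
    have hP := rl_mem hf
    rw [Finset.mem_coe]
    unfold Land
    rw [Finset.mem_filter]
    have hhead : (rl f).headD (0, 0) = f (Fin.last (m + 1)) := rl_head f
    have hout : ¬ Om (pTL T L) ((rl f).headD (0, 0)) := by
      rw [hhead]
      rintro ⟨o1, o2, -⟩
      simp only [pTL] at o2
      omega
    refine ⟨hP, hout, ?_⟩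
    have ho := class_om _ (ok_TL T L hT (by omega)) m _ hP hout
    obtain ⟨v, h1, h2, -, -⟩ := land_adj _ (ok_TL T L hT (by omega)) hP hout
    rw [hhead] at ho h2
    set z := f (Fin.last (m + 1)) with hz
    set w := W (rl f) with hw
    clear_value z w
    clear hz hw hhead hout hP hf
    rw [adj_iff] at h2
    obtain ⟨o1, o2, o3, o4, o5, o6, o7⟩ := h1
    unfold pTL hexPar at o1 o2 o3 o4 o5 o7
    simp only at o1 o2 o3 o4 o5 o7
    unfold Out pTL hexPar Slit at ho
    simp only at ho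
    rcases ho with h | h | h | h | h | h | h | h | h | h <;>
      rcases h2 with h2 | h2 | h2 | h2 <;>
      (rcases lt_trichotomy v.2 0 with c | c | c) <;> omega
  · intro f _ g _ h
    exact rl_inj h

theorem TL_sum (T L : ℤ) (hT : 1 ≤ T) (hL : T ≤ L) (n : ℕ) (hn : 12 * L ^ 2 ≤ n) :
    ∑ m ∈ Finset.range (n + 1), (Set.ncard {f : Fin (m + 2) → V |
      f ∈ WalkSet (Om (pTL T L)) m ∧ (f (Fin.last (m + 1))).2 < -T} : ℝ) * xc ^ m ≤
      7 / 2 * (T : ℝ) ^ (-(23 / 200) : ℝ) := by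
  refine le_trans ?_ (TL_mass T L hT hL n hn)
  unfold Mass
  apply Finset.sum_le_sum
  intro m _
  rw [xc_eq]
  apply mul_le_mul_of_nonneg_right _ (by have := mu0_pos; positivity)
  exact_mod_cast TL_count T L hT hL m

/-! ### the symmetric half-plane -/

/-- the automorphism `(x, y) ↦ (1 - x, -y)` -/
def ph (v : V) : V := (1 - v.1, -v.2)

theorem ph_inj {v w : V} (h : ph v = ph w) : v = w := by
  have h1 := congrArg Prod.fst h
  have h2 := congrArg Prod.snd h
  simp only [ph] at h1 h2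
  exact Prod.ext (by omega) (by omega)

theorem ph_adj {v w : V} (h : Adj v w) : Adj (ph v) (ph w) := by
  rw [adj_iff] at h ⊢
  simp only [ph]
  omega

/-- walks which start with the step `(0,0) → (0,1)` -/
def Up (D : V → Prop) (m : ℕ) : Set (Fin (m + 2) → V) :=
  {f | f 0 = (0, 0) ∧ f 1 = (0, 1) ∧ Function.Injective f ∧
    (∀ i : Fin (m + 1), Adj (f i.castSucc) (f i.succ)) ∧
    ∀ i : Fin (m + 1), i ≠ 0 → D (f i.castSucc)}

/-- the reflected walk with the additional first step `(0,0) → (1,0)` -/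
def lift {m : ℕ} (f : Fin (m + 2) → V) : Fin (m + 3) → V := Fin.cons (0, 0) (fun i => ph (f i))

theorem lift_inj {m : ℕ} {f g : Fin (m + 2) → V} (h : lift f = lift g) : f = g := by
  funext i
  have := congrFun h i.succ
  simp only [lift, Fin.cons_succ] at this
  exact ph_inj this

theorem lift_last {m : ℕ} (f : Fin (m + 2) → V) :
    lift f (Fin.last (m + 2)) = ph (f (Fin.last (m + 1))) := by
  rw [← Fin.succ_last]
  rfl

theorem lift_mem {D D' : V → Prop} {m : ℕ} {f : Fin (m + 2) → V} (hf : f ∈ Up D m)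
    (h1 : D' (1, 0)) (hD : ∀ v, D v → D' (ph v)) (h0 : ∀ i, i ≠ 0 → f i ≠ (1, 0)) :
    lift f ∈ WalkSet D' (m + 1) := by
  obtain ⟨a0, a1, a2, a3, a4⟩ := hf
  refine ⟨rfl, ?_, ?_, ?_, ?_⟩
  · have : (1 : Fin (m + 3)) = Fin.succ 0 := rfl
    rw [this]
    simp only [lift, Fin.cons_succ]
    rw [a0]
    simp [ph]
  · intro i j
    refine Fin.cases ?_ (fun i => ?_) i <;> refine Fin.cases ?_ (fun j => ?_) j
    · intro _; rfl
    · intro h
      exfalso
      simp only [lift, Fin.cons_zero, Fin.cons_succ] at h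
      have h2 : f j = (1, 0) := by
        have h3 := congrArg Prod.fst h
        have h4 := congrArg Prod.snd h
        simp only [ph] at h3 h4
        exact Prod.ext (by simp only; omega) (by simp only; omega)
      by_cases hj : j = 0
      · rw [hj, a0] at h2
        simp at h2
      · exact h0 j hj h2
    · intro h
      exfalso
      simp only [lift, Fin.cons_zero, Fin.cons_succ] at h
      have h2 : f i = (1, 0) := by
        have h3 := congrArg Prod.fst h
        have h4 := congrArg Prod.snd h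
        simp only [ph] at h3 h4
        exact Prod.ext (by simp only; omega) (by simp only; omega)
      by_cases hi : i = 0
      · rw [hi, a0] at h2
        simp at h2
      · exact h0 i hi h2
    · intro h
      simp only [lift, Fin.cons_succ] at h
      rw [a2 (ph_inj h)]
  · intro i
    refine Fin.cases ?_ (fun i => ?_) i
    · change Adj (0, 0) (ph (f 0))
      rw [a0, adj_iff]
      simp [ph]
    · exact ph_adj (a3 i)
  · intro i
    refine Fin.cases ?_ (fun i => ?_) i
    · intro h; exact absurd rfl h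
    · intro _
      change D' (ph (f i.castSucc))
      by_cases hi : i = 0
      · subst hi
        change D' (ph (f 0))
        rw [a0]
        simpa [ph] using h1
      · exact hD _ (a4 i hi)

/-! ### bridges -/

/-- the strip -/
def StripU (T : ℤ) (v : V) : Prop := 1 ≤ v.2 ∧ v.2 ≤ T

/-- bridges of height `T` -/
def Br (T : ℤ) (m : ℕ) : Set (Fin (m + 2) → V) :=
  {f | f ∈ Up (StripU T) m ∧ (f (Fin.last (m + 1))).2 = T + 1}

theorem cast_or_last {m : ℕ} (i : Fin (m + 2)) (hi : i ≠ 0) :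
    (∃ j : Fin (m + 1), j ≠ 0 ∧ i = j.castSucc) ∨ i = Fin.last (m + 1) := by
  rcases Fin.eq_castSucc_or_eq_last i with ⟨j, hj⟩ | h
  · left
    refine ⟨j, ?_, hj⟩
    intro h
    apply hi
    rw [hj, h]
    rfl
  · exact Or.inr h

/-- the reflected strip -/
def W3T (T : ℤ) (v : V) : Prop := (v.2 = 0 → 1 ≤ v.1) ∧ v.2 ≤ 0 ∧ -T ≤ v.2

instance (T : ℤ) : DecidablePred (W3T T) := fun v => by unfold W3T; infer_instance

theorem br_lift (T : ℤ) (hT : 1 ≤ T) (L : ℤ) (m : ℕ) (hL : (m : ℤ) + 4 ≤ L) {f : Fin (m + 2) → V}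
    (hf : f ∈ Br T m) : lift f ∈ {g : Fin (m + 3) → V |
      g ∈ WalkSet (Om (pTL T L)) (m + 1) ∧ (g (Fin.last (m + 2))).2 < -T} := by
  obtain ⟨h1, h2⟩ := hf
  have h3 : lift f ∈ WalkSet (W3T T) (m + 1) := by
    apply lift_mem h1
    · unfold W3T
      simp only
      omega
    · intro v hv
      unfold StripU at hv
      unfold W3T ph
      simp only
      omega
    · intro i hi
      rcases cast_or_last i hi with ⟨j, hj, rfl⟩ | rfl
      · have := h1.2.2.2.2 j hj
        intro h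
        rw [h] at this
        unfold StripU at this
        simp only at this
        omega
      · intro h
        rw [h] at h2
        simp only at h2
        omega
  have h4 := walk_trunc h3 L (by push_cast; omega)
  refine ⟨walk_mono ?_ _ h4, ?_⟩
  · rintro v ⟨a, b⟩
    unfold W3T at a
    unfold Hx at b
    unfold Om pTL hexPar
    simp only
    omega
  · rw [lift_last]
    simp only [ph]
    omega

theorem br_count (T : ℤ) (hT : 1 ≤ T) (L : ℤ) (m : ℕ) (hL : (m : ℤ) + 4 ≤ L) :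
    Set.ncard (Br T m) ≤ Set.ncard {g : Fin (m + 3) → V |
      g ∈ WalkSet (Om (pTL T L)) (m + 1) ∧ (g (Fin.last (m + 2))).2 < -T} :=
  Set.ncard_le_ncard_of_injOn lift (fun _ hf => br_lift T hT L m hL hf)
    (fun _ _ _ _ h => lift_inj h)
    ((walk_finite (Om (pTL T L)) (m + 1)).subset fun _ hg => hg.1)

theorem xc_inv : xc⁻¹ = mu0 := by rw [xc_eq, inv_inv]

/-- the partial sums of the bridge partition function -/
theorem br_partial (T : ℤ) (hT : 1 ≤ T) (M : ℕ) :
    ∑ m ∈ Finset.range M, (Set.ncard (Br T m) : ℝ) * xc ^ m ≤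
      13 / 2 * (T : ℝ) ^ (-(23 / 200) : ℝ) := by
  set L : ℤ := T + M + 4 with hL
  set n : ℕ := (12 * L ^ 2).toNat + M with hn
  have hn' : 12 * L ^ 2 ≤ n := by
    have := Int.self_le_toNat (12 * L ^ 2)
    push_cast [hn]
    omega
  have h := TL_sum T L hT (by omega) n hn'
  have hx := xc_pos
  have h1 : xc * ∑ m ∈ Finset.range M, (Set.ncard (Br T m) : ℝ) * xc ^ m ≤
      ∑ m ∈ Finset.range (n + 1), (Set.ncard {f : Fin (m + 2) → V |
        f ∈ WalkSet (Om (pTL T L)) m ∧ (f (Fin.last (m + 1))).2 < -T} : ℝ) * xc ^ m := by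
    rw [Finset.sum_range_succ', Finset.mul_sum]
    have h2 : ∑ m ∈ Finset.range M, xc * ((Set.ncard (Br T m) : ℝ) * xc ^ m) ≤
        ∑ m ∈ Finset.range n, (Set.ncard {f : Fin (m + 3) → V |
          f ∈ WalkSet (Om (pTL T L)) (m + 1) ∧ (f (Fin.last (m + 2))).2 < -T} : ℝ) *
          xc ^ (m + 1) := by
      calc ∑ m ∈ Finset.range M, xc * ((Set.ncard (Br T m) : ℝ) * xc ^ m)
          ≤ ∑ m ∈ Finset.range M, (Set.ncard {f : Fin (m + 3) → V |
            f ∈ WalkSet (Om (pTL T L)) (m + 1) ∧ (f (Fin.last (m + 2))).2 < -T} : ℝ) *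
            xc ^ (m + 1) := by
            apply Finset.sum_le_sum
            intro m hm
            rw [Finset.mem_range] at hm
            have h3 := br_count T hT L m (by omega)
            have h4 : (Set.ncard (Br T m) : ℝ) ≤ (Set.ncard {g : Fin (m + 3) → V |
              g ∈ WalkSet (Om (pTL T L)) (m + 1) ∧ (g (Fin.last (m + 2))).2 < -T} : ℝ) := by
              exact_mod_cast h3
            calc xc * ((Set.ncard (Br T m) : ℝ) * xc ^ m) =
                (Set.ncard (Br T m) : ℝ) * xc ^ (m + 1) := by rw [pow_succ]; ring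
              _ ≤ _ := mul_le_mul_of_nonneg_right h4 (pow_pos hx _).le
        _ ≤ _ := by
            apply Finset.sum_le_sum_of_subset_of_nonneg
            · intro m hm
              rw [Finset.mem_range] at hm ⊢
              omega
            · intro m _ _
              positivity
    refine h2.trans ?_
    have : (0 : ℝ) ≤ (Set.ncard {f : Fin (0 + 2) → V | f ∈ WalkSet (Om (pTL T L)) 0 ∧
        (f (Fin.last (0 + 1))).2 < -T} : ℝ) * xc ^ 0 := by positivity
    linarith
  have h5 := h1.trans h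
  have hT0 : (0 : ℝ) < T := by exact_mod_cast (by omega : 0 < T)
  have hr := Real.rpow_pos_of_pos hT0 (-(23 / 200))
  have hmu : xc⁻¹ ≤ 1.85 := by
    rw [xc_inv]
    unfold mu0
    rw [Real.sqrt_le_left (by norm_num)]
    have h1 := s2sq
    have h2 := s2_pos
    nlinarith
  have hxi : 0 < xc⁻¹ := inv_pos.2 hx
  calc ∑ m ∈ Finset.range M, (Set.ncard (Br T m) : ℝ) * xc ^ m
      = xc⁻¹ * (xc * ∑ m ∈ Finset.range M, (Set.ncard (Br T m) : ℝ) * xc ^ m) := by
        rw [← mul_assoc, inv_mul_cancel₀ hx.ne', one_mul]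
    _ ≤ xc⁻¹ * (7 / 2 * (T : ℝ) ^ (-(23 / 200) : ℝ)) := mul_le_mul_of_nonneg_left h5 hxi.le
    _ ≤ 1.85 * (7 / 2 * (T : ℝ) ^ (-(23 / 200) : ℝ)) :=
        mul_le_mul_of_nonneg_right hmu (by positivity)
    _ ≤ _ := by nlinarith

/-- **bridges** -/
theorem bridges (T : ℤ) (hT : 1 ≤ T) :
    Summable (fun m : ℕ => (Set.ncard (Br T m) : ℝ) * xc ^ m) ∧
    ∑' m : ℕ, (Set.ncard (Br T m) : ℝ) * xc ^ m ≤ 13 / 2 * (T : ℝ) ^ (-(23 / 200) : ℝ) := by
  have h0 : ∀ m : ℕ, 0 ≤ (Set.ncard (Br T m) : ℝ) * xc ^ m := fun m => by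
    have := xc_pos
    positivity
  exact ⟨summable_of_sum_range_le h0 (br_partial T hT),
    Real.tsum_le_of_sum_range_le h0 (br_partial T hT)⟩

/-! ### exits -/

/-- walks of `E` stopped when they leave the hexagon -/
def ExU (E : V → Prop) (N : ℤ) (m : ℕ) : Set (Fin (m + 2) → V) :=
  {f | f ∈ Up (fun v => E v ∧ Hx N v) m ∧ E (f (Fin.last (m + 1))) ∧
    ¬ Hx N (f (Fin.last (m + 1)))}

theorem hx_ph (N : ℤ) (v : V) : Hx N (ph v) ↔ Hx N v := by
  unfold Hx ph
  simp only
  omega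

theorem ex_lift (E : V → Prop) (hE : ∀ v, E v → 1 ≤ v.2) (N : ℤ) (hN : 1 ≤ N) (m : ℕ)
    {f : Fin (m + 2) → V} (hf : f ∈ ExU E N m) : lift f ∈ Cross (Wg 5) N (m + 1) := by
  obtain ⟨h1, h2, h3⟩ := hf
  have hW : ∀ v, E v → Wg 5 (ph v) := by
    intro v hv
    have := hE v hv
    unfold Wg ph
    simp only
    omega
  refine ⟨?_, ?_, ?_⟩
  · apply lift_mem h1
    · constructor
      · unfold Wg; norm_num
      · unfold Hx; simp only; omega
    · intro v hv
      exact ⟨hW v hv.1, (hx_ph N v).2 hv.2⟩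
    · intro i hi
      rcases cast_or_last i hi with ⟨j, hj, rfl⟩ | rfl
      · have := hE _ (h1.2.2.2.2 j hj).1
        intro h
        rw [h] at this
        simp at this
      · have := hE _ h2
        intro h
        rw [h] at this
        simp at this
  · rw [lift_last]
    exact hW _ h2
  · rw [lift_last, hx_ph]
    exact h3

theorem ex_partial (E : V → Prop) (hE : ∀ v, E v → 1 ≤ v.2) (N : ℤ) (hN : 1 ≤ N) (M : ℕ) :
    ∑ m ∈ Finset.range M, (Set.ncard (ExU E N m) : ℝ) * xc ^ m ≤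
      13 / 2 * (N : ℝ) ^ (-(23 / 200) : ℝ) := by
  have h := far_walks (J := 5) (by norm_num) (by norm_num) N hN
  have e1 : cst 5 = 7 / 2 := by norm_num [cst]
  have e2 : th 5 = 23 / 200 := by norm_num [th]
  rw [e1, e2] at h
  obtain ⟨n, hn⟩ := big N
  have hx := xc_pos
  have hZ : Zc (Wg 5) N = ∑ m ∈ Finset.range (n + M + 1),
      (Set.ncard (Cross (Wg 5) N m) : ℝ) * xc ^ m := by
    unfold Zc
    apply tsum_eq_sum
    intro m hm
    rw [Finset.mem_range, not_lt] at hm
    unfold Cross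
    rw [xs_empty (J := 5) (by norm_num) (by norm_num) N hN n m hn (by omega)]
    simp
  have hfin : ∀ m, (Cross (Wg 5) N m).Finite := fun m =>
    (walk_finite (fun v => Wg 5 v ∧ Hx N v) m).subset fun f hf => hf.1
  have h1 : xc * ∑ m ∈ Finset.range M, (Set.ncard (ExU E N m) : ℝ) * xc ^ m ≤ Zc (Wg 5) N := by
    rw [hZ, Finset.sum_range_succ', Finset.mul_sum]
    have h2 : ∑ m ∈ Finset.range M, xc * ((Set.ncard (ExU E N m) : ℝ) * xc ^ m) ≤
        ∑ m ∈ Finset.range (n + M), (Set.ncard (Cross (Wg 5) N (m + 1)) : ℝ) * xc ^ (m + 1) := by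
      calc ∑ m ∈ Finset.range M, xc * ((Set.ncard (ExU E N m) : ℝ) * xc ^ m)
          ≤ ∑ m ∈ Finset.range M, (Set.ncard (Cross (Wg 5) N (m + 1)) : ℝ) * xc ^ (m + 1) := by
            apply Finset.sum_le_sum
            intro m _
            have h3 : Set.ncard (ExU E N m) ≤ Set.ncard (Cross (Wg 5) N (m + 1)) :=
              Set.ncard_le_ncard_of_injOn lift (fun _ hf => ex_lift E hE N hN m hf)
                (fun _ _ _ _ h => lift_inj h) (hfin _)
            have h4 : (Set.ncard (ExU E N m) : ℝ) ≤ (Set.ncard (Cross (Wg 5) N (m + 1)) : ℝ) := by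
              exact_mod_cast h3
            calc xc * ((Set.ncard (ExU E N m) : ℝ) * xc ^ m) =
                (Set.ncard (ExU E N m) : ℝ) * xc ^ (m + 1) := by rw [pow_succ]; ring
              _ ≤ _ := mul_le_mul_of_nonneg_right h4 (pow_pos hx _).le
        _ ≤ _ := by
            apply Finset.sum_le_sum_of_subset_of_nonneg
            · intro m hm
              rw [Finset.mem_range] at hm ⊢
              omega
            · intro m _ _
              positivity
    refine h2.trans ?_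
    have : (0 : ℝ) ≤ (Set.ncard (Cross (Wg 5) N 0) : ℝ) * xc ^ 0 := by positivity
    linarith
  have h5 := h1.trans h
  have hN0 : (0 : ℝ) < N := by exact_mod_cast (by omega : 0 < N)
  have hr := Real.rpow_pos_of_pos hN0 (-(23 / 200))
  have hmu : xc⁻¹ ≤ 1.85 := by
    rw [xc_inv]
    unfold mu0
    rw [Real.sqrt_le_left (by norm_num)]
    have h1 := s2sq
    have h2 := s2_pos
    nlinarith
  have hxi : 0 < xc⁻¹ := inv_pos.2 hx
  calc ∑ m ∈ Finset.range M, (Set.ncard (ExU E N m) : ℝ) * xc ^ m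
      = xc⁻¹ * (xc * ∑ m ∈ Finset.range M, (Set.ncard (ExU E N m) : ℝ) * xc ^ m) := by
        rw [← mul_assoc, inv_mul_cancel₀ hx.ne', one_mul]
    _ ≤ xc⁻¹ * (7 / 2 * (N : ℝ) ^ (-(23 / 200) : ℝ)) := mul_le_mul_of_nonneg_left h5 hxi.le
    _ ≤ 1.85 * (7 / 2 * (N : ℝ) ^ (-(23 / 200) : ℝ)) :=
        mul_le_mul_of_nonneg_right hmu (by positivity)
    _ ≤ _ := by nlinarith

theorem exits (E : V → Prop) (hE : ∀ v, E v → 1 ≤ v.2) (N : ℤ) (hN : 1 ≤ N) :
    Summable (fun m : ℕ => (Set.ncard (ExU E N m) : ℝ) * xc ^ m) ∧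
    ∑' m : ℕ, (Set.ncard (ExU E N m) : ℝ) * xc ^ m ≤ 13 / 2 * (N : ℝ) ^ (-(23 / 200) : ℝ) := by
  have h0 : ∀ m : ℕ, 0 ≤ (Set.ncard (ExU E N m) : ℝ) * xc ^ m := fun m => by
    have := xc_pos
    positivity
  exact ⟨summable_of_sum_range_le h0 (ex_partial E hE N hN),
    Real.tsum_le_of_sum_range_le h0 (ex_partial E hE N hN)⟩

end Pool.Agent.TH232.WX
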