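import Pool.Agent.TH232.WX.Bri
import Pool.Agent.W818.TD.Refl

set_option autoImplicit false

/-! The mass of the bridges of the strips in the direction `x - y`. -/

namespace Pool.Agent.TH232.WX

open H978R2.Hex H978R3.Wedge Pool.Agent.TH232.Hex
open Pool.Agent.W818.TD (EBr hl la Wt M la_mem M_le_of)
open scoped ENNReal

/-- rotation by 120 degrees about the origin -/
def ro (v : V) : V := (-((v.1 + v.2) / 2) - v.2, (v.1 - v.2 + 1) / 2)

theorem ro_inj {v w : V} (h : ro v = ro w) : v = w := by
  have h1 := congrArg Prod.fst h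
  have h2 := congrArg Prod.snd h
  simp only [ro] at h1 h2
  exact Prod.ext (by omega) (by omega)

theorem ro_adj {v w : V} (h : Adj v w) : Adj (ro v) (ro w) := by
  rw [adj_iff] at h ⊢
  simp only [ro]
  omega

/-- the function of a bridge -/
def fn (β : List V) (m : ℕ) (i : Fin (m + 2)) : V :=
  if i.1 ≤ m then ro (β.getD i.1 (0, 0)) else ro (la β) + (0, 1)

theorem la_getD {β : List V} {m : ℕ} (hm : β.length = m + 1) : la β = β.getD m (0, 0) := by
  unfold la
  rw [List.getLastD_eq_getLast?, List.getLast?_eq_getElem?, hm]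
  simp [List.getD_eq_getElem?_getD]

theorem fn_last (β : List V) (m : ℕ) : fn β m (Fin.last (m + 1)) = ro (la β) + (0, 1) := by
  unfold fn
  rw [if_neg]
  simp

theorem fn_mem {T : ℤ} (hT : 1 ≤ T) {β : List V} (h : EBr β) (hh : hl β = 2 * T) {m : ℕ}
    (hm : β.length = m + 1) : fn β m ∈ Br T m := by
  have hlev : ∀ i, i ≤ m → (β.getD i (0, 0)).1 - (β.getD i (0, 0)).2 ≤ 2 * T := by
    intro i hi
    rw [List.getD_eq_getElem _ _ (by omega), ← hh]
    exact h.top _ (List.getElem_mem _)
  have hpos : ∀ i, i ≠ 0 → i ≤ m → 1 ≤ (β.getD i (0, 0)).1 - (β.getD i (0, 0)).2 := by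
    intro i h0 hi
    apply h.pos
    obtain ⟨j, rfl⟩ : ∃ j, i = j + 1 := ⟨i - 1, by omega⟩
    rw [List.getD_eq_getElem _ _ (by omega)]
    have : β[j + 1]'(by omega) = β.tail[j]'(by rw [List.length_tail]; omega) := by
      rw [List.getElem_tail]
    rw [this]
    exact List.getElem_mem _
  have hzero : β.getD 0 (0, 0) = (0, 0) := by
    obtain ⟨t, rfl⟩ := h.cons
    rfl
  have hadj : ∀ i, i < m → Adj (β.getD i (0, 0)) (β.getD (i + 1) (0, 0)) := by
    intro i hi
    rw [List.getD_eq_getElem _ _ (by omega), List.getD_eq_getElem _ _ (by omega)]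
    exact List.isChain_iff_getElem.1 h.ch i (by omega)
  have hinj : ∀ i j, i ≤ m → j ≤ m → β.getD i (0, 0) = β.getD j (0, 0) → i = j := by
    intro i j hi hj he
    rw [List.getD_eq_getElem _ _ (by omega), List.getD_eq_getElem _ _ (by omega)] at he
    exact (List.Nodup.getElem_inj_iff h.nd).1 he
  have hla := la_getD hm
  have hlal : (la β).1 - (la β).2 = 2 * T := hh
  have hm0 : m ≠ 0 := by
    rintro rfl
    rw [hla, hzero] at hlal
    simp at hlal
    omega
  have hone : β.getD 1 (0, 0) = (1, 0) := by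
    have h1 := hadj 0 (by omega)
    have h2 := hpos 1 (by omega) (by omega)
    rw [hzero] at h1
    rw [adj_iff] at h1
    simp only [zero_add] at h1
    generalize β.getD 1 (0, 0) = p at h1 h2 ⊢
    exact Prod.ext (by simp only; omega) (by simp only; omega)
  have hf : ∀ i : Fin (m + 2), i.1 ≤ m → fn β m i = ro (β.getD i.1 (0, 0)) := by
    intro i hi
    unfold fn
    rw [if_pos hi]
  refine ⟨⟨?_, ?_, ?_, ?_, ?_⟩, ?_⟩
  · rw [hf 0 (by simp)]
    simp only [Fin.val_zero]
    rw [hzero]
    simp [ro]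
  · have e : ((1 : Fin (m + 2)) : ℕ) = 1 := rfl
    rw [hf 1 (by rw [e]; omega), e, hone]
    simp [ro]
  · intro i j hij
    have hlow : ∀ i : Fin (m + 2), i.1 ≤ m → (fn β m i).2 ≤ T := by
      intro i hi
      rw [hf i hi]
      have := hlev i.1 hi
      unfold ro
      simp only
      omega
    have htop : ∀ i : Fin (m + 2), ¬ i.1 ≤ m → (fn β m i).2 = T + 1 := by
      intro i hi
      unfold fn
      rw [if_neg hi]
      unfold ro
      simp only [Prod.snd_add]
      omega
    by_cases hi : i.1 ≤ m <;> by_cases hj : j.1 ≤ m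
    · rw [hf i hi, hf j hj] at hij
      exact Fin.ext (hinj _ _ hi hj (ro_inj hij))
    · have h1 := hlow i hi
      have h2 := htop j hj
      rw [hij] at h1
      omega
    · have h1 := hlow j hj
      have h2 := htop i hi
      rw [← hij] at h1
      omega
    · apply Fin.ext
      have := i.2
      have := j.2
      omega
  · intro i
    by_cases hi : i.1 < m
    · rw [hf i.castSucc (by simp; omega), hf i.succ (by simp; omega)]
      simp only [Fin.val_castSucc, Fin.val_succ]
      exact ro_adj (hadj i.1 hi)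
    · have him : i.1 = m := by have := i.2; omega
      have hi2 : i.succ = Fin.last (m + 1) := by
        apply Fin.ext
        simp [him]
      rw [hi2, fn_last, hf i.castSucc (by simp; omega)]
      simp only [Fin.val_castSucc]
      rw [him, ← hla, adj_iff]
      unfold ro
      simp only [Prod.fst_add, Prod.snd_add]
      omega
  · intro i hi
    have hi' : i.1 ≠ 0 := fun h => hi (Fin.ext h)
    have him : i.1 ≤ m := by have := i.2; omega
    rw [hf i.castSucc (by simpa using him)]
    simp only [Fin.val_castSucc]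
    have h1 := hpos i.1 hi' him
    have h2 := hlev i.1 him
    unfold StripU ro
    simp only
    omega
  · rw [fn_last]
    unfold ro
    simp only [Prod.snd_add]
    omega

theorem fn_inj {β β' : List V} {m : ℕ} (hm : β.length = m + 1) (hm' : β'.length = m + 1)
    (h : fn β m = fn β' m) : β = β' := by
  apply List.ext_getElem (by omega)
  intro i hi hi'
  have h1 := congrFun h ⟨i, by omega⟩
  unfold fn at h1
  rw [if_pos (by simp only; omega), if_pos (by simp only; omega)] at h1
  have h2 := ro_inj h1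
  simp only at h2
  rw [List.getD_eq_getElem _ _ hi, List.getD_eq_getElem _ _ hi'] at h2
  exact h2

theorem br_finite (T : ℤ) (hT : 1 ≤ T) (m : ℕ) : (Br T m).Finite := by
  refine Set.Finite.of_injOn (f := lift)
    (t := {g : Fin (m + 3) → V | g ∈ WalkSet (Om (pTL T (T + m + 4))) (m + 1) ∧
      (g (Fin.last (m + 2))).2 < -T}) ?_ (fun _ _ _ _ h => lift_inj h)
    ((walk_finite (Om (pTL T (T + m + 4))) (m + 1)).subset fun _ hg => hg.1)
  intro f hf
  exact br_lift T hT _ m (by omega) hf

/-- **the mass of the bridges** -/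
theorem M_bridge (T : ℤ) (hT : 1 ≤ T) :
    M {β | EBr β ∧ hl β = 2 * T} ≤ ENNReal.ofReal (13 / 2 * (T : ℝ) ^ (-(23 / 200) : ℝ)) := by
  classical
  apply M_le_of
  intro F hF
  have hx : (0 : ℝ) ≤ mu0⁻¹ := (inv_pos.2 mu0_pos).le
  unfold Wt
  rw [← ENNReal.ofReal_sum_of_nonneg (fun β _ => pow_nonneg hx _)]
  apply ENNReal.ofReal_le_ofReal
  set L := F.sup (fun β => β.length) with hL
  have h1 : ∑ β ∈ F, (mu0⁻¹) ^ (β.length - 1) =
      ∑ m ∈ Finset.range (L + 1), ∑ β ∈ F with β.length - 1 = m, (mu0⁻¹) ^ (β.length - 1) := by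
    rw [Finset.sum_fiberwise_of_maps_to]
    intro β hβ
    rw [Finset.mem_range]
    have : β.length ≤ L := Finset.le_sup (f := fun β : List V => β.length) hβ
    omega
  rw [h1]
  refine le_trans ?_ (br_partial T hT (L + 1))
  apply Finset.sum_le_sum
  intro m _
  have h2 : ∑ β ∈ F with β.length - 1 = m, (mu0⁻¹) ^ (β.length - 1) =
      ((F.filter fun β => β.length - 1 = m).card : ℝ) * xc ^ m := by
    rw [← nsmul_eq_mul, ← Finset.sum_const, xc_eq]
    apply Finset.sum_congr rfl
    intro β hβ
    rw [(Finset.mem_filter.1 hβ).2]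
  rw [h2]
  apply mul_le_mul_of_nonneg_right _ (pow_pos xc_pos m).le
  have h3 : ∀ β ∈ F.filter (fun β => β.length - 1 = m), EBr β ∧ hl β = 2 * T ∧
      β.length = m + 1 := by
    intro β hβ
    rw [Finset.mem_filter] at hβ
    obtain ⟨h4, h5⟩ := hF β hβ.1
    have := List.length_pos_of_ne_nil h4.ne
    exact ⟨h4, h5, by omega⟩
  have h4 : Set.ncard ((F.filter (fun β => β.length - 1 = m) : Finset (List V)) : Set (List V)) ≤
      Set.ncard (Br T m) := by
    apply Set.ncard_le_ncard_of_injOn (fun β => fn β m) _ _ (br_finite T hT m)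
    · intro β hβ
      obtain ⟨a, b, c⟩ := h3 β (Finset.mem_coe.1 hβ)
      exact fn_mem hT a b c
    · intro β hβ β' hβ' he
      exact fn_inj (h3 β (Finset.mem_coe.1 hβ)).2.2 (h3 β' (Finset.mem_coe.1 hβ')).2.2 he
  rw [Set.ncard_coe_finset] at h4
  exact_mod_cast h4

end Pool.Agent.TH232.WX
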