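import Pool.Agent.TH232.WX.CutA
import Pool.Agent.W818.TD.Main

set_option autoImplicit false

/-! The probability of a cut at an even level, and cut lines. -/

namespace Pool.Agent.TH232.WX.Cut

open Pool.Agent.H976R3.HPL
open Pool.Agent.W818.TD
open Filter Topology Finset MeasureTheory
open scoped ENNReal

variable {Λ : Set ℂ} {r : ℝ}

/-- bridges with an even end are first cuts -/
theorem fst_of {d : ℤ} {β : List V} (h : EBr β) (hd : hl β = d) : Fst (d - 1) β := by
  refine ⟨h, by omega, ?_⟩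
  intro β1 η h1 h2 h3 h4
  apply h2.trivial_of
  have := hl_cat (β := β1) h2
  rw [← h4] at this
  omega

/-- **the probability of a cut at an even level** -/
theorem cut_prob {c0 : ℕ} (hc : c0 ≤ 1) (E : Emb hexA (vv c0) Λ r) (μ : Measure (ℕ → ℂ))
    [IsProbabilityMeasure μ]
    (hcyl : ∀ (k : ℕ) (η : ℕ → ℂ), Tendsto (fun n =>
      (({γ ∈ PW Λ r n | ∀ i ≤ k, γ i = η i}).ncard : ℝ) / ((PW Λ r n).ncard : ℝ)) atTop
        (𝓝 (μ.real {γ | ∀ i ≤ k, γ i = η i})))
    (d : ℤ) (hd : 1 ≤ d) :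
    μ (⋃ β : {β : List V | EBr β ∧ hl β = d}, EB E (β : List V)) ≤
      M {β | EBr β ∧ hl β = d} := by
  classical
  set S : Set (List V) := {β : List V | EBr β ∧ hl β = d} with hS
  set R : Set (List V) := {β : List V | Fst (d - 1) β ∧ ¬ β ∈ S} with hR
  have hSF : ∀ β ∈ S, Fst (d - 1) β := fun β hβ => fst_of hβ.1 hβ.2
  have hmeas : ∀ β : List V, MeasurableSet (EB E β) := fun β => Tr.meas_Ev E _ _
  have hdisR : Pairwise (Function.onFun Disjoint fun β : R => EB E (β : List V)) := by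
    intro β β' hne
    simp only [Function.onFun]
    rw [Set.disjoint_left]
    intro γ h1 h2
    exact hne (Subtype.ext (EB_disj hc E (by omega) β.2.1 β'.2.1 h1 h2))
  have hRge : M R ≤ μ (⋃ β : R, EB E (β : List V)) := by
    rw [measure_iUnion hdisR fun β => hmeas _]
    refine ENNReal.tsum_le_tsum fun β => ?_
    exact EB_ge hc E μ hcyl β.2.1.1 (by have := β.2.1.2.1; omega)
  have hdis : Disjoint (⋃ β : S, EB E (β : List V)) (⋃ β : R, EB E (β : List V)) := by
    rw [Set.disjoint_left]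
    intro γ h1 h2
    rw [Set.mem_iUnion] at h1 h2
    obtain ⟨β, h1⟩ := h1
    obtain ⟨β', h2⟩ := h2
    have := EB_disj hc E (by omega) (hSF _ β.2) β'.2.1 h1 h2
    apply β'.2.2
    rw [← this]
    exact β.2
  have hsum : μ (⋃ β : S, EB E (β : List V)) + μ (⋃ β : R, EB E (β : List V)) ≤ 1 := by
    rw [← measure_union hdis (MeasurableSet.iUnion fun β => hmeas _)]
    exact prob_le_one
  have h1 : 1 ≤ M S + M R := by
    refine (M_fst_ge (d - 1)).trans ((M_mono ?_).trans (M_union_le S R))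
    intro β hβ
    by_cases h : β ∈ S
    · exact Or.inl h
    · exact Or.inr ⟨hβ, h⟩
  have h2 : μ (⋃ β : S, EB E (β : List V)) + μ (⋃ β : R, EB E (β : List V)) ≤
      M S + μ (⋃ β : R, EB E (β : List V)) := hsum.trans (h1.trans (by gcongr))
  exact (ENNReal.add_le_add_iff_right (measure_ne_top _ _)).1 h2

/-- cut lines at height `y` -/
def CutAt (y : ℝ) (γ : ℕ → ℂ) : Prop := ∃ k : ℕ, (∀ i ≤ k, (γ i).im ≤ y) ∧ ∀ i, k < i → y < (γ i).im

/-- the number of the row -/
noncomputable def jj (c0 : ℕ) (r y : ℝ) : ℤ := (⌊4 * (y / r + c0)⌋ + 2) / 6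

theorem height_iff {c0 : ℕ} (hr : 0 < r) (E : Emb hexA (vv c0) Λ r) (hE : Expl E) (p : V) (y : ℝ) :
    (E.pos p).im ≤ y ↔ 3 * (p.1 - p.2) + G4_par p ≤ ⌊4 * (y / r + c0)⌋ := by
  rw [Int.le_floor, hE.2]
  constructor
  · intro h
    have h1 : r / 4 * ((3 * (p.1 - p.2) + G4_par p : ℤ) : ℝ) ≤ y + c0 * r := by linarith
    have h2 : ((3 * (p.1 - p.2) + G4_par p : ℤ) : ℝ) ≤ (y + c0 * r) / (r / 4) := by
      rw [le_div_iff₀ (by positivity)]
      linarith
    have h3 : (y + c0 * r) / (r / 4) = 4 * (y / r + c0) := by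
      field_simp
    rw [h3] at h2
    exact h2
  · intro h
    have h1 : r / 4 * ((3 * (p.1 - p.2) + G4_par p : ℤ) : ℝ) ≤ r / 4 * (4 * (y / r + c0)) :=
      mul_le_mul_of_nonneg_left h (by positivity)
    have h2 : r / 4 * (4 * (y / r + c0)) = y + c0 * r := by
      field_simp
    linarith

/-- a path in the lattice with an even cut starts with a bridge -/
theorem mem_EB {c0 : ℕ} (hc : c0 ≤ 1) (E : Emb hexA (vv c0) Λ r) {γ : ℕ → ℂ} (p : ℕ → V)
    (hp : ∀ i, E.pos (p i) = γ i) (h0 : p 0 = vv c0) (hadj : ∀ i, HAdj (p i) (p (i + 1)))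
    (hinj : Function.Injective p) (hnn : ∀ i, (c0 : ℤ) ≤ (p i).1 - (p i).2)
    (j : ℤ) (k : ℕ) (hlow : ∀ i ≤ k, (p i).1 - (p i).2 ≤ 2 * j)
    (hup : ∀ i, k < i → 2 * j + 1 ≤ (p i).1 - (p i).2) :
    ∃ β : List V, EBr β ∧ hl β = 2 * j ∧ γ ∈ EB E β := by
  have hk : (p k).1 - (p k).2 = 2 * j := by
    have h1 := hlow k le_rfl
    have h2 := hup (k + 1) (by omega)
    have h3 := hadj k
    rw [HAdj_iff] at h3
    omega
  have hpos : ∀ i, 1 ≤ i → 1 ≤ (p i).1 - (p i).2 := by
    intro i hi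
    have h1 := hnn i
    by_contra hcon
    have hc1 : (p i).1 - (p i).2 = 0 := by omega
    have h2 := hadj (i - 1)
    have h3 := hadj i
    have e : i - 1 + 1 = i := by omega
    rw [e] at h2
    rw [HAdj_iff] at h2 h3
    have h4 := hnn (i - 1)
    have h5 := hnn (i + 1)
    have h6 : p (i - 1) = p (i + 1) := Prod.ext (by omega) (by omega)
    have := hinj h6
    omega
  set κ : List V := (List.range (k + 1)).map p with hκ
  have hκlen : κ.length = k + 1 := by rw [hκ]; simp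
  have hκget : ∀ i (hi : i < κ.length), κ[i] = p i := by
    intro i hi
    simp [hκ]
  have hκch : κ.IsChain H978R2.Hex.Adj := by
    rw [List.isChain_iff_getElem]
    intro i hi
    rw [hκget, hκget]
    exact hadj i
  have hκnd : κ.Nodup := (List.nodup_range).map hinj
  have hκhead : κ.head? = some (vv c0) := by
    rw [List.head?_eq_getElem?, List.getElem?_eq_getElem (by omega), hκget, h0]
  have hκne : κ ≠ [] := by
    intro h
    rw [h] at hκlen
    simp at hκlen
  have hκla : la κ = p k := by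
    unfold la
    rw [List.getLastD_eq_getLast?, List.getLast?_eq_getElem?, hκlen,
      List.getElem?_eq_getElem (by omega)]
    simp only [Nat.add_sub_cancel, Option.getD_some]
    exact hκget k (by omega)
  have hκmem : ∀ w ∈ κ, ∃ i, i ≤ k ∧ w = p i := by
    intro w hw
    obtain ⟨i, hi, rfl⟩ := List.getElem_of_mem hw
    exact ⟨i, by omega, hκget i hi⟩
  obtain ⟨β, hβ1, hβ2, hβ3, hβ4⟩ : ∃ β : List V, EBr β ∧ β.drop c0 = κ ∧ la β = p k ∧
      β.length = κ.length + c0 := by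
    interval_cases c0
    · refine ⟨κ, ⟨?_, hκch, hκnd, ?_, ?_, ?_⟩, by simp, hκla, by simp⟩
      · rw [hκhead]
        simp [vv]
      · intro w hw
        obtain ⟨i, hi, rfl⟩ := List.getElem_of_mem hw
        rw [List.length_tail] at hi
        rw [List.getElem_tail, hκget]
        exact hpos _ (by omega)
      · intro w hw
        obtain ⟨i, hi, rfl⟩ := hκmem w hw
        unfold hl
        rw [hκla, hk]
        exact hlow i hi
      · unfold hl
        rw [hκla, hk]
        omega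
    · have hla : la ((0, 0) :: κ) = p k := by rw [la_cons hκne, hκla]
      refine ⟨(0, 0) :: κ, ⟨rfl, ?_, ?_, ?_, ?_, ?_⟩, by simp, hla, by simp⟩
      · rw [List.isChain_cons]
        refine ⟨?_, hκch⟩
        intro y hy
        rw [hκhead, Option.mem_def, Option.some.injEq] at hy
        rw [← hy, H978R2.Hex.adj_iff]
        simp [vv]
      · rw [List.nodup_cons]
        refine ⟨?_, hκnd⟩
        intro hmem
        obtain ⟨i, hi, h⟩ := hκmem _ hmem
        have := hnn i
        rw [← h] at this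
        simp at this
      · intro w hw
        rw [List.tail_cons] at hw
        obtain ⟨i, hi, rfl⟩ := hκmem w hw
        have := hnn i
        simpa using this
      · intro w hw
        unfold hl
        rw [hla, hk]
        rcases List.mem_cons.1 hw with rfl | hw
        · have h1 := hlow 0 (by omega)
          have h2 := hnn 0
          simp only [Nat.cast_one] at h2
          simp only
          omega
        · obtain ⟨i, hi, rfl⟩ := hκmem w hw
          exact hlow i hi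
      · unfold hl
        rw [hla, hk]
        omega
  refine ⟨β, hβ1, ?_, ?_⟩
  · unfold hl
    rw [hβ3, hk]
  · have hm : β.length - 1 - c0 = k := by omega
    have hlast : (β.drop c0).getLastD (vv c0) = p k := by
      rw [hβ2, List.getLastD_eq_getLast?, List.getLast?_eq_getElem?, hκlen,
        List.getElem?_eq_getElem (by omega)]
      simp only [Nat.add_sub_cancel, Option.getD_some]
      exact hκget k (by omega)
    refine ⟨?_, ?_⟩
    · intro i hi
      rw [hm] at hi
      rw [hβ2, List.getD_eq_getElem _ _ (by omega), hκget, hp]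
    · intro i hi
      rw [hm] at hi
      refine ⟨p i, hp i, ?_⟩
      rw [hlast, hA, hA, hk]
      have := hup i hi
      omega

/-- a path with a cut line starts with a bridge -/
theorem cut_mem {c0 : ℕ} (hc : c0 ≤ 1) (hr : 0 < r) (E : Emb hexA (vv c0) Λ r) (hE : Expl E)
    {γ : ℕ → ℂ} (h0 : γ 0 = 0) (hΛ : ∀ i, γ i ∈ Λ ∧ 0 ≤ (γ i).im)
    (hstep : ∀ i, ‖γ (i + 1) - γ i‖ = r) (hinj : Function.Injective γ) {y : ℝ}
    (hcut : CutAt y γ) :
    ∃ β : List V, EBr β ∧ hl β = 2 * jj c0 r y ∧ γ ∈ EB E β := by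
  have hex : ∀ i, ∃ p, E.pos p = γ i := fun i => (E.range _).1 (hΛ i).1
  choose p hp using hex
  have hp0 : p 0 = vv c0 := by
    apply E.inj
    rw [hp, h0, E.pos_v]
  have hadj : ∀ i, HAdj (p i) (p (i + 1)) := by
    intro i
    have : hexA.Adj (p i) (p (i + 1)) := by
      rw [E.adj, hp, hp]
      exact hstep i
    exact this
  have hpinj : Function.Injective p := by
    intro i j h
    apply hinj
    rw [← hp, ← hp, h]
  have hnn : ∀ i, (c0 : ℤ) ≤ (p i).1 - (p i).2 := by
    intro i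
    have h1 := (E.im (p i)).2 (by rw [hp]; exact (hΛ i).2)
    rw [hA, hA] at h1
    unfold vv at h1
    simpa using h1
  obtain ⟨k, hk1, hk2⟩ := hcut
  set z : ℤ := ⌊4 * (y / r + c0)⌋ with hz
  have hlow : ∀ i ≤ k, 3 * ((p i).1 - (p i).2) + G4_par (p i) ≤ z := by
    intro i hi
    rw [hz, ← height_iff hr E hE, hp]
    exact hk1 i hi
  have hup : ∀ i, k < i → z < 3 * ((p i).1 - (p i).2) + G4_par (p i) := by
    intro i hi
    rw [← not_le, hz, ← height_iff hr E hE, hp, not_le]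
    exact hk2 i hi
  unfold G4_par at hlow hup
  have hj : jj c0 r y = (z + 2) / 6 := rfl
  rw [hj]
  by_cases hcase : z % 6 < 4
  · refine mem_EB hc E p hp hp0 hadj hpinj hnn ((z + 2) / 6) k ?_ ?_
    · intro i hi
      have := hlow i hi
      omega
    · intro i hi
      have := hup i hi
      omega
  · have hlow' : ∀ i ≤ k, (p i).1 - (p i).2 ≤ 2 * ((z + 2) / 6) - 1 := by
      intro i hi
      have := hlow i hi
      omega
    have hup' : ∀ i, k < i → 2 * ((z + 2) / 6) ≤ (p i).1 - (p i).2 := by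
      intro i hi
      have := hup i hi
      omega
    refine mem_EB hc E p hp hp0 hadj hpinj hnn ((z + 2) / 6) (k + 1) ?_ ?_
    · intro i hi
      rcases Nat.lt_or_ge k i with h | h
      · have hik : i = k + 1 := by omega
        subst hik
        have h1 := hlow' k le_rfl
        have h2 := hadj k
        rw [HAdj_iff] at h2
        omega
      · have := hlow' i h
        omega
    · intro i hi
      have h1 := hup' i (by omega)
      by_contra hcon
      have h2 := hadj (i - 1)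
      have h3 := hadj i
      have e : i - 1 + 1 = i := by omega
      rw [e] at h2
      have h4 := hup' (i - 1) (by omega)
      have h5 := hup' (i + 1) (by omega)
      rw [HAdj_iff] at h2 h3
      have h6 : p (i - 1) = p (i + 1) := Prod.ext (by omega) (by omega)
      have := hpinj h6
      omega

/-- **cut lines in a window** -/
theorem window {c0 : ℕ} (hc : c0 ≤ 1) (hr : 0 < r) (E : Emb hexA (vv c0) Λ r) (hE : Expl E)
    (μ : Measure (ℕ → ℂ)) [IsProbabilityMeasure μ]
    (hae : ∀ᵐ γ ∂μ, γ 0 = 0 ∧ (∀ i, γ i ∈ Λ ∧ 0 ≤ (γ i).im) ∧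
      (∀ i, ‖γ (i + 1) - γ i‖ = r) ∧ Function.Injective γ)
    (hcyl : ∀ (k : ℕ) (η : ℕ → ℂ), Tendsto (fun n =>
      (({γ ∈ PW Λ r n | ∀ i ≤ k, γ i = η i}).ncard : ℝ) / ((PW Λ r n).ncard : ℝ)) atTop
        (𝓝 (μ.real {γ | ∀ i ≤ k, γ i = η i})))
    {t s : ℝ} (ht : r ≤ t) (hs : 0 ≤ s) :
    μ {γ | ∃ y ∈ Set.Icc t (t + s), CutAt y γ} ≤
      ENNReal.ofReal (15 * (1 + s / r) * (t / r) ^ (-(23 / 200) : ℝ)) := by
  have hc' : (c0 : ℝ) ≤ 1 := by exact_mod_cast hc
  have hc0 : (0 : ℝ) ≤ c0 := by positivity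
  have htr : 1 ≤ t / r := by rw [le_div_iff₀ hr]; linarith
  have hsr : 0 ≤ s / r := by positivity
  -- rows
  have hmono : ∀ y ∈ Set.Icc t (t + s), jj c0 r t ≤ jj c0 r y ∧ jj c0 r y ≤ jj c0 r (t + s) := by
    intro y hy
    have h1 : ⌊4 * (t / r + c0)⌋ ≤ ⌊4 * (y / r + c0)⌋ := by
      apply Int.floor_le_floor
      have := div_le_div_of_nonneg_right hy.1 hr.le
      linarith
    have h2 : ⌊4 * (y / r + c0)⌋ ≤ ⌊4 * ((t + s) / r + c0)⌋ := by
      apply Int.floor_le_floor
      have := div_le_div_of_nonneg_right hy.2 hr.le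
      linarith
    unfold jj
    omega
  set J : Finset ℤ := Finset.Icc (jj c0 r t) (jj c0 r (t + s)) with hJ
  have hsub : ∀ᵐ γ ∂μ, γ ∈ {γ | ∃ y ∈ Set.Icc t (t + s), CutAt y γ} →
      γ ∈ ⋃ j ∈ J, ⋃ β : {β : List V | EBr β ∧ hl β = 2 * j}, EB E (β : List V) := by
    filter_upwards [hae] with γ hγ hcut
    obtain ⟨y, hy, hcy⟩ := hcut
    obtain ⟨β, b1, b2, b3⟩ := cut_mem hc hr E hE hγ.1 hγ.2.1 hγ.2.2.1 hγ.2.2.2 hcy
    rw [Set.mem_iUnion₂]
    refine ⟨jj c0 r y, ?_, ?_⟩
    · rw [hJ, Finset.mem_Icc]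
      exact hmono y hy
    · rw [Set.mem_iUnion]
      exact ⟨⟨β, b1, b2⟩, b3⟩
  refine (measure_mono_ae hsub).trans ?_
  refine (measure_biUnion_finset_le _ _).trans ?_
  -- bounds for the rows
  have hjt1 : (1 : ℤ) ≤ jj c0 r t := by
    have : (4 : ℤ) ≤ ⌊4 * (t / r + c0)⌋ := by
      rw [Int.le_floor]
      push_cast
      linarith
    unfold jj
    omega
  have hjt : 2 / 5 * (t / r) ≤ (jj c0 r t : ℝ) := by
    have h1 : (1 : ℝ) ≤ jj c0 r t := by exact_mod_cast hjt1
    have h2 : 4 * (t / r + c0) < ⌊4 * (t / r + c0)⌋ + 1 := Int.lt_floor_add_one _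
    have h3 : ⌊4 * (t / r + c0)⌋ + 2 < 6 * jj c0 r t + 6 := by
      unfold jj
      omega
    have h4 : ((⌊4 * (t / r + c0)⌋ : ℝ)) + 2 ≤ 6 * jj c0 r t + 5 := by
      have : ⌊4 * (t / r + c0)⌋ + 2 ≤ 6 * jj c0 r t + 5 := by omega
      exact_mod_cast this
    rcases le_or_gt (t / r) (5 / 2) with h | h
    · linarith
    · linarith
  have hcard : (J.card : ℝ) ≤ 2 + s / r := by
    have h1 : J.card = (jj c0 r (t + s) + 1 - jj c0 r t).toNat := by
      rw [hJ, Int.card_Icc]
    have h2 : jj c0 r t ≤ jj c0 r (t + s) := (hmono t ⟨le_rfl, by linarith⟩).2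
    have h3 : (J.card : ℤ) = jj c0 r (t + s) + 1 - jj c0 r t := by
      rw [h1, Int.toNat_of_nonneg (by omega)]
    have h4 : (J.card : ℝ) = jj c0 r (t + s) + 1 - jj c0 r t := by exact_mod_cast h3
    rw [h4]
    have a1 : 4 * (t / r + c0) < ⌊4 * (t / r + c0)⌋ + 1 := Int.lt_floor_add_one _
    have a2 : (⌊4 * ((t + s) / r + c0)⌋ : ℝ) ≤ 4 * ((t + s) / r + c0) := Int.floor_le _
    have a3 : 6 * jj c0 r (t + s) ≤ ⌊4 * ((t + s) / r + c0)⌋ + 2 := by
      unfold jj
      omega
    have a4 : ⌊4 * (t / r + c0)⌋ + 2 ≤ 6 * jj c0 r t + 5 := by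
      unfold jj
      omega
    have a5 : 6 * (jj c0 r (t + s) : ℝ) ≤ ⌊4 * ((t + s) / r + c0)⌋ + 2 := by exact_mod_cast a3
    have a6 : (⌊4 * (t / r + c0)⌋ : ℝ) + 2 ≤ 6 * jj c0 r t + 5 := by exact_mod_cast a4
    have a7 : (t + s) / r = t / r + s / r := by ring
    linarith
  -- every row
  set B : ℝ := 13 / 2 * (2 / 5 * (t / r)) ^ (-(23 / 200) : ℝ) with hB
  have hrow : ∀ j ∈ J, μ (⋃ β : {β : List V | EBr β ∧ hl β = 2 * j}, EB E (β : List V)) ≤
      ENNReal.ofReal B := by
    intro j hj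
    rw [hJ, Finset.mem_Icc] at hj
    have hj1 : (1 : ℤ) ≤ j := hjt1.trans hj.1
    refine (cut_prob hc E μ hcyl (2 * j) (by omega)).trans ((M_bridge j hj1).trans ?_)
    apply ENNReal.ofReal_le_ofReal
    rw [hB]
    apply mul_le_mul_of_nonneg_left _ (by norm_num)
    apply Real.rpow_le_rpow_of_nonpos (by positivity) _ (by norm_num)
    have : (jj c0 r t : ℝ) ≤ j := by exact_mod_cast hj.1
    linarith
  refine (Finset.sum_le_sum hrow).trans ?_
  rw [Finset.sum_const, nsmul_eq_mul, ← ENNReal.ofReal_natCast,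
    ← ENNReal.ofReal_mul (Nat.cast_nonneg _)]
  apply ENNReal.ofReal_le_ofReal
  have htr0 : 0 < t / r := by linarith
  have hpow : (2 / 5 * (t / r)) ^ (-(23 / 200) : ℝ) ≤ 15 / 13 * (t / r) ^ (-(23 / 200) : ℝ) := by
    rw [Real.mul_rpow (by norm_num) htr0.le]
    apply mul_le_mul_of_nonneg_right _ (Real.rpow_nonneg htr0.le _)
    rw [Real.rpow_neg (by norm_num), ← Real.inv_rpow (by norm_num)]
    have h1 : ((2 / 5 : ℝ)⁻¹) = 5 / 2 := by norm_num
    rw [h1]
    have h2 : ((5 / 2 : ℝ) ^ ((23 : ℝ) / 200)) ≤ (5 / 2) ^ ((1 : ℝ) / 8) := by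
      apply Real.rpow_le_rpow_of_exponent_le (by norm_num) (by norm_num)
    refine h2.trans ?_
    have h3 : ((15 / 13 : ℝ)) = ((15 / 13 : ℝ) ^ (8 : ℕ)) ^ ((1 : ℝ) / 8) := by
      rw [← Real.rpow_natCast, ← Real.rpow_mul (by norm_num)]
      norm_num
    rw [h3]
    apply Real.rpow_le_rpow (by norm_num) (by norm_num) (by norm_num)
  have hP := Real.rpow_pos_of_pos htr0 (-(23 / 200))
  calc (J.card : ℝ) * B ≤ (2 + s / r) * (13 / 2 * (15 / 13 * (t / r) ^ (-(23 / 200) : ℝ))) := by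
        apply mul_le_mul hcard _ _ (by linarith)
        · rw [hB]
          apply mul_le_mul_of_nonneg_left hpow (by norm_num)
        · rw [hB]
          positivity
    _ ≤ _ := by nlinarith [mul_nonneg hsr hP.le]

end Pool.Agent.TH232.WX.Cut
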