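import Pool.Agent.TH232.WX.CutB

set_option autoImplicit false

/-! The number of rows with a cut line, almost surely. -/

namespace Pool.Agent.TH232.WX.Cut

open Pool.Agent.H976R3.HPL
open Pool.Agent.W818.TD
open Filter Topology Finset MeasureTheory
open scoped ENNReal

theorem sum_rpow (p : ℝ) (hp : 0 < p) (hp1 : p ≤ 1) (N : ℕ) :
    ∑ n ∈ range N, ((n : ℝ) + 1) ^ (p - 1) ≤ (N : ℝ) ^ p / p := by
  induction N with
  | zero => simp [Real.zero_rpow hp.ne']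
  | succ N ih =>
    rw [Finset.sum_range_succ]
    have hN : (0 : ℝ) ≤ N := Nat.cast_nonneg _
    have hN1 : (0 : ℝ) < (N : ℝ) + 1 := by linarith
    have h1 := rpow_one_add_le_one_add_mul_self (s := -1 / ((N : ℝ) + 1)) (p := p) (by
      rw [le_div_iff₀ hN1]
      linarith) hp.le hp1
    have h2 : 1 + -1 / ((N : ℝ) + 1) = N / (N + 1) := by field_simp; ring
    rw [h2, Real.div_rpow hN hN1.le, div_le_iff₀ (Real.rpow_pos_of_pos hN1 p)] at h1
    have h3 : ((N : ℝ) + 1) ^ (p - 1) = ((N : ℝ) + 1) ^ p / (N + 1) := Real.rpow_sub_one hN1.ne' p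
    have h4 : (1 + p * (-1 / ((N : ℝ) + 1))) * ((N : ℝ) + 1) ^ p =
        ((N : ℝ) + 1) ^ p - p * ((N : ℝ) + 1) ^ (p - 1) := by
      rw [h3]
      field_simp
      ring
    rw [h4] at h1
    rw [le_div_iff₀ hp] at ih ⊢
    push_cast
    linarith

variable {Λ : Set ℂ} {r : ℝ}

/-- the event that there is a cut line in the row `n` -/
def An (r : ℝ) (n : ℕ) : Set (ℕ → ℂ) :=
  {γ | ∃ y ∈ Set.Icc ((n : ℝ) * r) (((n : ℝ) + 1) * r), CutAt y γ}

/-- the number of the rows -/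
noncomputable def XN (μ : Measure (ℕ → ℂ)) (r : ℝ) (N : ℕ) (γ : ℕ → ℂ) : ℝ≥0∞ :=
  ∑ n ∈ range N, (toMeasurable μ (An r n)).indicator 1 γ

theorem count_le_XN (μ : Measure (ℕ → ℂ)) (r : ℝ) (N : ℕ) (γ : ℕ → ℂ) :
    ((Set.ncard {n : ℕ | n < N ∧ γ ∈ An r n} : ℕ) : ℝ≥0∞) ≤ XN μ r N γ := by
  classical
  have h1 : {n : ℕ | n < N ∧ γ ∈ An r n} = ((range N).filter (fun n => γ ∈ An r n) : Finset ℕ) := by
    ext n
    simp
  rw [h1, Set.ncard_coe_finset, Finset.card_filter]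
  push_cast
  unfold XN
  refine Finset.sum_le_sum fun n _ => ?_
  by_cases h : γ ∈ An r n
  · rw [if_pos h, Set.indicator_of_mem (subset_toMeasurable μ _ h)]
    rfl
  · rw [if_neg h]
    exact zero_le

theorem XN_meas (μ : Measure (ℕ → ℂ)) (r : ℝ) (N : ℕ) : Measurable (XN μ r N) := by
  unfold XN
  refine Finset.measurable_sum _ fun n _ => ?_
  exact measurable_one.indicator (measurableSet_toMeasurable μ _)

theorem XN_lint (μ : Measure (ℕ → ℂ)) (r : ℝ) (N : ℕ) :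
    ∫⁻ γ, XN μ r N γ ∂μ = ∑ n ∈ range N, μ (An r n) := by
  unfold XN
  rw [lintegral_finsetSum]
  · refine Finset.sum_congr rfl fun n _ => ?_
    rw [lintegral_indicator_one (measurableSet_toMeasurable μ _), measure_toMeasurable]
  · intro n _
    exact measurable_one.indicator (measurableSet_toMeasurable μ _)

theorem XN_mono (μ : Measure (ℕ → ℂ)) (r : ℝ) {N N' : ℕ} (h : N ≤ N') (γ : ℕ → ℂ) :
    XN μ r N γ ≤ XN μ r N' γ := by
  unfold XN
  apply Finset.sum_le_sum_of_subset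
  intro n hn
  rw [Finset.mem_range] at hn ⊢
  omega

/-- the expected number of rows -/
theorem exp_bound (μ : Measure (ℕ → ℂ)) [IsProbabilityMeasure μ] (hr : 0 < r)
    (hw : ∀ t s : ℝ, r ≤ t → 0 ≤ s → μ {γ | ∃ y ∈ Set.Icc t (t + s), CutAt y γ} ≤
      ENNReal.ofReal (15 * (1 + s / r) * (t / r) ^ (-(23 / 200) : ℝ))) (N : ℕ) :
    ∑ n ∈ range (N + 1), μ (An r n) ≤ ENNReal.ofReal (35 * ((N : ℝ) + 1) ^ ((177 : ℝ) / 200)) := by
  have hrow : ∀ n : ℕ, μ (An r (n + 1)) ≤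
      ENNReal.ofReal (30 * ((n : ℝ) + 1) ^ ((177 : ℝ) / 200 - 1)) := by
    intro n
    have h1 := hw (((n : ℝ) + 1) * r) r (by
      have : (0 : ℝ) ≤ n := Nat.cast_nonneg _
      nlinarith) hr.le
    have e1 : An r (n + 1) = {γ | ∃ y ∈ Set.Icc (((n : ℝ) + 1) * r) (((n : ℝ) + 1) * r + r),
        CutAt y γ} := by
      unfold An
      push_cast
      have : ((n : ℝ) + 1 + 1) * r = ((n : ℝ) + 1) * r + r := by ring
      rw [this]
    rw [e1]
    refine h1.trans (le_of_eq ?_)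
    congr 1
    rw [mul_div_assoc, div_self hr.ne']
    norm_num
  rw [Finset.sum_range_succ']
  have h2 : ∑ n ∈ range N, μ (An r (n + 1)) ≤
      ENNReal.ofReal (34 * (N : ℝ) ^ ((177 : ℝ) / 200)) := by
    refine (Finset.sum_le_sum fun n _ => hrow n).trans ?_
    rw [← ENNReal.ofReal_sum_of_nonneg (fun n _ => by positivity)]
    apply ENNReal.ofReal_le_ofReal
    rw [← Finset.mul_sum]
    have h3 := sum_rpow (177 / 200) (by norm_num) (by norm_num) N
    have h4 : (0 : ℝ) ≤ (N : ℝ) ^ ((177 : ℝ) / 200) := by positivity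
    have h5 : (N : ℝ) ^ ((177 : ℝ) / 200) / (177 / 200) ≤
        34 / 30 * (N : ℝ) ^ ((177 : ℝ) / 200) := by
      rw [div_le_iff₀ (by norm_num)]
      nlinarith
    linarith
  have h3 : μ (An r 0) ≤ ENNReal.ofReal 1 := by
    rw [ENNReal.ofReal_one]
    exact prob_le_one
  refine (add_le_add h2 h3).trans ?_
  rw [← ENNReal.ofReal_add (by positivity) (by norm_num)]
  apply ENNReal.ofReal_le_ofReal
  have hN : (0 : ℝ) ≤ N := Nat.cast_nonneg _
  have h4 : (N : ℝ) ^ ((177 : ℝ) / 200) ≤ ((N : ℝ) + 1) ^ ((177 : ℝ) / 200) :=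
    Real.rpow_le_rpow hN (by linarith) (by norm_num)
  have h5 : (1 : ℝ) ≤ ((N : ℝ) + 1) ^ ((177 : ℝ) / 200) :=
    Real.one_le_rpow (by linarith) (by norm_num)
  linarith

/-- **almost surely few rows have a cut line** -/
theorem as_count (μ : Measure (ℕ → ℂ)) [IsProbabilityMeasure μ] (hr : 0 < r)
    (hw : ∀ t s : ℝ, r ≤ t → 0 ≤ s → μ {γ | ∃ y ∈ Set.Icc t (t + s), CutAt y γ} ≤
      ENNReal.ofReal (15 * (1 + s / r) * (t / r) ^ (-(23 / 200) : ℝ)))
    (θ : ℝ) (hθ : 177 / 200 < θ) :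
    ∀ᵐ γ ∂μ, ∀ᶠ N : ℕ in atTop,
      (Set.ncard {n : ℕ | n < N ∧ γ ∈ An r n} : ℝ) ≤ (N : ℝ) ^ θ := by
  set q : ℝ := (2 : ℝ) ^ ((177 : ℝ) / 200 - θ) with hq
  have hq0 : 0 ≤ q := by positivity
  have hq1 : q < 1 := Real.rpow_lt_one_of_one_lt_of_neg (by norm_num) (by linarith)
  set s : ℕ → Set (ℕ → ℂ) := fun k =>
    {γ | ENNReal.ofReal ((2 : ℝ) ^ (θ * k)) ≤ XN μ r (2 ^ (k + 1)) γ} with hs
  have hsk : ∀ k, μ (s k) ≤ ENNReal.ofReal (70 * q ^ k) := by
    intro k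
    have hpos : (0 : ℝ) < (2 : ℝ) ^ (θ * k) := by positivity
    have h1 := meas_ge_le_lintegral_div (μ := μ) (f := XN μ r (2 ^ (k + 1)))
      (XN_meas μ r _).aemeasurable (ε := ENNReal.ofReal ((2 : ℝ) ^ (θ * k)))
      (by simpa using hpos) ENNReal.ofReal_ne_top
    refine h1.trans ?_
    rw [XN_lint]
    have h2 := exp_bound μ hr hw (2 ^ (k + 1) - 1)
    have e1 : 2 ^ (k + 1) - 1 + 1 = 2 ^ (k + 1) := by
      have : 1 ≤ 2 ^ (k + 1) := Nat.one_le_two_pow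
      omega
    have e2 : (((2 ^ (k + 1) - 1 : ℕ) : ℝ) + 1) = (2 : ℝ) ^ (k + 1) := by
      have : (((2 ^ (k + 1) - 1 : ℕ) : ℝ) + 1) = ((2 ^ (k + 1) - 1 + 1 : ℕ) : ℝ) := by push_cast; rfl
      rw [this, e1]
      push_cast
      rfl
    rw [e1, e2] at h2
    refine (ENNReal.div_le_div_right h2 _).trans ?_
    rw [← ENNReal.ofReal_div_of_pos hpos]
    apply ENNReal.ofReal_le_ofReal
    rw [div_le_iff₀ hpos]
    have e3 : ((2 : ℝ) ^ (k + 1)) ^ ((177 : ℝ) / 200) =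
        (2 : ℝ) ^ ((177 : ℝ) / 200) * (2 : ℝ) ^ ((177 : ℝ) / 200 * k) := by
      rw [← Real.rpow_natCast, ← Real.rpow_mul (by norm_num), ← Real.rpow_add (by norm_num)]
      congr 1
      push_cast
      ring
    have e4 : q ^ k * (2 : ℝ) ^ (θ * k) = (2 : ℝ) ^ ((177 : ℝ) / 200 * k) := by
      rw [hq, ← Real.rpow_natCast, ← Real.rpow_mul (by norm_num), ← Real.rpow_add (by norm_num)]
      congr 1
      ring
    rw [e3, mul_assoc, e4]
    have h3 : (2 : ℝ) ^ ((177 : ℝ) / 200) ≤ 2 := by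
      calc (2 : ℝ) ^ ((177 : ℝ) / 200) ≤ (2 : ℝ) ^ (1 : ℝ) :=
            Real.rpow_le_rpow_of_exponent_le (by norm_num) (by norm_num)
        _ = 2 := Real.rpow_one 2
    have h4 : (0 : ℝ) < (2 : ℝ) ^ ((177 : ℝ) / 200 * k) := by positivity
    nlinarith
  have hsum : ∑' k, μ (s k) ≠ ∞ := by
    have h1 : Summable (fun k : ℕ => 70 * q ^ k) :=
      (summable_geometric_of_lt_one hq0 hq1).mul_left 70
    exact ne_top_of_le_ne_top h1.tsum_ofReal_ne_top (ENNReal.tsum_le_tsum hsk)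
  filter_upwards [ae_eventually_notMem hsum] with γ hγ
  have hlog : Tendsto (fun N : ℕ => Nat.log 2 N) atTop atTop := by
    rw [tendsto_atTop]
    intro b
    filter_upwards [eventually_ge_atTop (2 ^ b)] with N hN
    exact Nat.le_log_of_pow_le (by norm_num) hN
  filter_upwards [hlog.eventually hγ, eventually_ge_atTop 1] with N hN hN1
  simp only [hs, Set.mem_ofPred_eq, not_le] at hN
  set k := Nat.log 2 N with hk
  have h1 : 2 ^ k ≤ N := Nat.pow_log_le_self 2 (by omega)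
  have h2 : N < 2 ^ (k + 1) := Nat.lt_pow_succ_log_self (by norm_num) N
  have h3 : ((Set.ncard {n : ℕ | n < N ∧ γ ∈ An r n} : ℕ) : ℝ≥0∞) <
      ENNReal.ofReal ((2 : ℝ) ^ (θ * k)) :=
    ((count_le_XN μ r N γ).trans (XN_mono μ r h2.le γ)).trans_lt hN
  have h4 : (Set.ncard {n : ℕ | n < N ∧ γ ∈ An r n} : ℝ) ≤ (2 : ℝ) ^ (θ * k) := by
    rw [← ENNReal.ofReal_natCast] at h3
    exact ((ENNReal.ofReal_lt_ofReal_iff (by positivity)).1 h3).le
  refine h4.trans ?_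
  rw [mul_comm θ, Real.rpow_mul (by norm_num), Real.rpow_natCast]
  apply Real.rpow_le_rpow (by positivity) _ (by linarith)
  exact_mod_cast h1

end Pool.Agent.TH232.WX.Cut
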