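import Pool.Agent.TH232.WX.Size

set_option autoImplicit false

/-! The decay of the far masses in the wedges. -/

namespace Pool.Agent.TH232.WX

open H978R2.Hex H978R3.Wedge Pool.Agent.TH232.Hex Complex

/-- weighted far mass -/
noncomputable def Gp (J : ℕ) (p : Par) (n : ℕ) : ℝ :=
  ∑ k ∈ Finset.Icc (-3 : ℤ) ((J : ℤ) - 4), F 1 (lB J) k * Mass (Om p) n k

theorem far_sub {J : ℕ} (hJ6 : J ≤ 6) :
    Finset.Icc (-3 : ℤ) ((J : ℤ) - 4) ⊆ Finset.Icc (-4 : ℤ) 5 := by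
  intro k hk
  rw [Finset.mem_Icc] at hk ⊢
  omega

theorem rest_iff {J : ℕ} {k : ℤ} :
    k ∈ Finset.Icc (-4 : ℤ) 5 \ Finset.Icc (-3 : ℤ) ((J : ℤ) - 4) ↔
      (-4 ≤ k ∧ k ≤ 5) ∧ (k = -4 ∨ (J : ℤ) - 3 ≤ k) := by
  rw [Finset.mem_sdiff, Finset.mem_Icc, Finset.mem_Icc]
  omega

theorem G_split {J : ℕ} (hJ6 : J ≤ 6) {p : Par} (hp : Ok p) (S : Finset V)
    (hS : ∀ v, Om p v → v ∈ S) (n : ℕ) (hn : S.card ≤ n) :
    Gp J p n + ∑ k ∈ Finset.Icc (-4 : ℤ) 5 \ Finset.Icc (-3 : ℤ) ((J : ℤ) - 4),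
      F 1 (lB J) k * Mass (Om p) n k = 1 := by
  have h := sum_F (fun k => Mass (Om p) n k) 1 (lB J) (mass_identity p hp S hS n hn)
  have e := Finset.sum_sdiff (f := fun k => F 1 (lB J) k * Mass (Om p) n k)
    (far_sub (J := J) hJ6)
  unfold Gp
  linarith

/-- one term of the rest -/
theorem rest_term {J : ℕ} (hJ : 3 ≤ J) (hJ6 : J ≤ 6) {p p' : Par} (hp : Ok p) (hp' : Ok p')
    (hw : WP J p) (hw' : WP J p') (hsub : ∀ v, Om p v → Om p' v) (n : ℕ) (k : ℤ)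
    (hk : k ∈ Finset.Icc (-4 : ℤ) 5 \ Finset.Icc (-3 : ℤ) ((J : ℤ) - 4)) :
    0 ≤ F 1 (lB J) k * Mass (Om p) n k ∧
      F 1 (lB J) k * Mass (Om p) n k ≤ F 1 (lB J) k * Mass (Om p') n k := by
  rw [rest_iff] at hk
  obtain ⟨n1, n2, n3⟩ := nearJ J hJ hJ6
  have hm := mass_nonneg (Om p) n k
  have hmono : (k = -4 ∨ k = (J : ℤ) - 3 ∨ (J = 3 ∧ k = 1)) →
      Mass (Om p) n k ≤ Mass (Om p') n k := by
    intro hk'
    apply mass_mono p p' hp hsub
    intro z hz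
    refine out_gen p p' k z hz ?_ ?_ ?_ ?_ ?_ ?_ ?_ ?_
    · intro h; exact hw'.w4.trans hw.w4.symm
    · intro h; exact hw'.w3.trans hw.w3.symm
    · intro h; rw [hw'.w2 (by omega), hw.w2 (by omega)]
    · intro h; rw [hw'.w1 (by omega), hw.w1 (by omega)]
    · intro h; rw [hw'.w0 (by omega), hw.w0 (by omega)]
    · intro h; omega
    · intro h; omega
    · intro h; omega
  by_cases h4 : k = -4
  · subst h4
    exact ⟨mul_nonneg n1 hm, mul_le_mul_of_nonneg_left (hmono (Or.inl rfl)) n1⟩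
  · by_cases h3 : k = (J : ℤ) - 3
    · subst h3
      exact ⟨mul_nonneg n2 hm, mul_le_mul_of_nonneg_left (hmono (Or.inr (Or.inl rfl))) n2⟩
    · by_cases h1 : k = 1
      · have hJ3 : J = 3 := by omega
        subst h1
        exact ⟨mul_nonneg (n3 hJ3) hm,
          mul_le_mul_of_nonneg_left (hmono (Or.inr (Or.inr ⟨hJ3, rfl⟩))) (n3 hJ3)⟩
      · rw [zero_mass hJ hJ6 hp hw k (by omega) h1 (by omega) n,
          zero_mass hJ hJ6 hp' hw' k (by omega) h1 (by omega) n]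
        simp

theorem G_anti {J : ℕ} (hJ : 3 ≤ J) (hJ6 : J ≤ 6) {p p' : Par} (hp : Ok p) (hp' : Ok p')
    (hw : WP J p) (hw' : WP J p') (hsub : ∀ v, Om p v → Om p' v) (S : Finset V)
    (hS : ∀ v, Om p' v → v ∈ S) (n : ℕ) (hn : S.card ≤ n) : Gp J p' n ≤ Gp J p n := by
  have h1 := G_split hJ6 hp S (fun v hv => hS v (hsub v hv)) n hn
  have h2 := G_split hJ6 hp' S hS n hn
  have h3 := Finset.sum_le_sum fun k hk => (rest_term hJ hJ6 hp hp' hw hw' hsub n k hk).2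
  linarith

theorem G_le_one {J : ℕ} (hJ : 3 ≤ J) (hJ6 : J ≤ 6) {p : Par} (hp : Ok p)
    (hw : WP J p) (S : Finset V) (hS : ∀ v, Om p v → v ∈ S) (n : ℕ) (hn : S.card ≤ n) :
    Gp J p n ≤ 1 := by
  have h1 := G_split hJ6 hp S hS n hn
  have h3 := Finset.sum_nonneg fun k hk => (rest_term hJ hJ6 hp hp hw hw (fun _ h => h) n k hk).1
  linarith

theorem Psi_far {J : ℕ} (hJ : 3 ≤ J) (hJ6 : J ≤ 6) (p : Par) (n : ℕ) :
    Psi J p n = ∑ k ∈ Finset.Icc (-3 : ℤ) ((J : ℤ) - 4), vJ J k * Mass (Om p) n k := by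
  unfold Psi
  symm
  apply Finset.sum_subset (far_sub hJ6)
  intro k hk hk'
  rw [Finset.mem_Icc] at hk hk'
  rw [vJ_near J k (by omega) hJ hJ6, zero_mul]

theorem G_le_Psi {J : ℕ} (hJ : 3 ≤ J) (hJ6 : J ≤ 6) (p : Par) (n : ℕ) :
    cv J * Gp J p n ≤ Psi J p n := by
  rw [Psi_far hJ hJ6]
  unfold Gp
  rw [Finset.mul_sum]
  apply Finset.sum_le_sum
  intro k hk
  rw [Finset.mem_Icc] at hk
  rw [← mul_assoc]
  exact mul_le_mul_of_nonneg_right (cmpJ J hJ hJ6 k hk.1 hk.2).2.1 (mass_nonneg _ _ _)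

theorem Psi_le_G {J : ℕ} (hJ : 3 ≤ J) (hJ6 : J ≤ 6) (p : Par) (n : ℕ) :
    Psi J p n ≤ Cv J * Gp J p n := by
  rw [Psi_far hJ hJ6]
  unfold Gp
  rw [Finset.mul_sum]
  apply Finset.sum_le_sum
  intro k hk
  rw [Finset.mem_Icc] at hk
  rw [← mul_assoc]
  exact mul_le_mul_of_nonneg_right (cmpJ J hJ hJ6 k hk.1 hk.2).2.2 (mass_nonneg _ _ _)

theorem cL_pos (J : ℕ) : 0 < cL J := by
  unfold cL
  split_ifs <;> norm_num

theorem cv_pos (J : ℕ) : 0 < cv J := by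
  unfold cv
  split_ifs <;> norm_num

/-- the far mass of the truncated wedge -/
noncomputable def Fx (J : ℕ) (N : ℤ) (n : ℕ) : ℝ :=
  ∑ k ∈ Finset.Icc (-2 : ℤ) ((J : ℤ) - 4), Mass (Om (xPar J N)) n k

theorem Fx_le_G {J : ℕ} (hJ : 3 ≤ J) (hJ6 : J ≤ 6) (N : ℤ) (n : ℕ) :
    cL J * Fx J N n ≤ Gp J (xPar J N) n := by
  unfold Fx Gp
  rw [Finset.mul_sum]
  calc ∑ k ∈ Finset.Icc (-2 : ℤ) ((J : ℤ) - 4), cL J * Mass (Om (xPar J N)) n k
      ≤ ∑ k ∈ Finset.Icc (-2 : ℤ) ((J : ℤ) - 4), F 1 (lB J) k * Mass (Om (xPar J N)) n k := by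
        apply Finset.sum_le_sum
        intro k hk
        rw [Finset.mem_Icc] at hk
        exact mul_le_mul_of_nonneg_right (cmpJ J hJ hJ6 k (by omega) hk.2).1 (mass_nonneg _ _ _)
    _ ≤ _ := by
        apply Finset.sum_le_sum_of_subset_of_nonneg
        · intro k hk
          rw [Finset.mem_Icc] at hk ⊢
          omega
        · intro k hk _
          rw [Finset.mem_Icc] at hk
          exact mul_nonneg ((cL_pos J).le.trans (cmpJ J hJ hJ6 k hk.1 hk.2).1) (mass_nonneg _ _ _)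

/-- the decay along the scales -/
theorem decayJ {J : ℕ} (hJ : 3 ≤ J) (hJ6 : J ≤ 6) (N : ℤ) (hN : 1 ≤ N) (n : ℕ)
    (hn : 12 * N ^ 2 ≤ n) (i : ℕ) (hsub : ∀ v, Om (domJ J i) v → Om (xPar J N) v) :
    Fx J N n ≤ Cv J / (cL J * cv J) * gJ J ^ i := by
  set S := (Finset.Icc (-2 * N + 1) (2 * N) ×ˢ Finset.Icc (-N) N : Finset V) with hSdef
  have hS : ∀ v, Om (xPar J N) v → v ∈ S := fun v hv => x_finite J hJ hJ6 N hN v hv
  have hcard : S.card ≤ n := w_card N hN n hn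
  have hpsi : ∀ m : ℕ, m ≤ i → Psi J (domJ J m) n ≤ gJ J ^ m * Cv J := by
    intro m
    induction m with
    | zero =>
      intro _
      rw [pow_zero, one_mul]
      have h1 := G_le_one hJ hJ6 (good_domJ hJ6 0).ok (wp_domJ hJ6 0) S
        (fun v hv => hS v (hsub v (om_domJ hJ6 (Nat.zero_le i) v hv))) n hcard
      have h2 := Psi_le_G hJ hJ6 (domJ J 0) n
      have h3 : 0 < Cv J := by unfold Cv; split_ifs <;> norm_num
      nlinarith
    | succ m ih =>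
      intro hm
      have h1 := ih (by omega)
      have h2 := sweep_up hJ hJ6 (good_domJ hJ6 m) (wp_domJ hJ6 m) S
        (fun v hv => hS v (hsub v (om_domJ hJ6 (i := m + 1) (by omega) v hv))) n hcard
      calc Psi J (domJ J (m + 1)) n ≤ gJ J * Psi J (domJ J m) n := h2
        _ ≤ gJ J * (gJ J ^ m * Cv J) := mul_le_mul_of_nonneg_left h1 (gJ_pos J).le
        _ = _ := by rw [pow_succ]; ring
  have h1 := hpsi i le_rfl
  have h2 := G_le_Psi hJ hJ6 (domJ J i) n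
  have h3 := G_anti hJ hJ6 (good_domJ hJ6 i).ok (ok_x J N hN) (wp_domJ hJ6 i) (wp_x J hJ6 N)
    hsub S hS n hcard
  have h4 := Fx_le_G hJ hJ6 N n
  have c1 := cL_pos J
  have c2 := cv_pos J
  rw [div_mul_eq_mul_div, le_div_iff₀ (mul_pos c1 c2)]
  calc Fx J N n * (cL J * cv J) = cv J * (cL J * Fx J N n) := by ring
    _ ≤ cv J * Gp J (domJ J i) n := mul_le_mul_of_nonneg_left (h4.trans h3) c2.le
    _ ≤ gJ J ^ i * Cv J := h2.trans h1
    _ = _ := by ring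

/-- the exponents -/
noncomputable def th (J : ℕ) : ℝ :=
  if J = 3 then 3 / 4 else if J = 4 then 27 / 100 else if J = 5 then 23 / 200 else 1 / 24

/-- the constants -/
noncomputable def cst (J : ℕ) : ℝ :=
  if J = 3 then 32 else if J = 4 then 6 else if J = 5 then 7 / 2 else 3

noncomputable def aJ (J : ℕ) : ℝ :=
  if J = 3 then 2.09 else if J = 4 then 4.335 else if J = 5 then 9.3 else 19.75

noncomputable def tJ (J : ℕ) : ℝ :=
  if J = 3 then 14.3 else if J = 4 then 2.52 else if J = 5 then 1.36 else 1.11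

theorem th_pos (J : ℕ) : 0 < th J := by
  unfold th
  split_ifs <;> norm_num

theorem scaleJ {J : ℕ} (hJ : 3 ≤ J) (hJ6 : J ≤ 6) (N : ℤ) (hN : 1 ≤ N) :
    ∃ i : ℕ, (N : ℝ) ≤ (aJ J * xJ J / 2) * sJ J ^ (i + 1) ∧
      ∀ v, Om (domJ J i) v → Om (xPar J N) v := by
  have hs := sJ_gt J
  have hx := xJ_pos J
  have ha : 0 < aJ J := by unfold aJ; split_ifs <;> norm_num
  set n0 := aJ J * xJ J / 2 with hn0
  have hn0pos : 0 < n0 := by positivity
  by_cases hcase : (N : ℝ) < n0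
  · refine ⟨0, ?_, ?_⟩
    · have : (1 : ℝ) ≤ sJ J ^ (0 + 1) := by rw [zero_add, pow_one]; exact hs.le
      nlinarith
    · intro v hv
      change Om q0 v at hv
      rw [om_x J hJ hJ6 N hN]
      obtain ⟨o1, o2, o3, o4, o5, o6, o7⟩ := hv
      simp only [q0] at o1 o2 o3 o4 o5 o6 o7
      unfold Wg Hx
      have hv2 : v.2 = 0 := by omega
      have := o6 hv2
      omega
  · push Not at hcase
    obtain ⟨i, hi1, hi2⟩ := exists_nat_pow_near (x := (N : ℝ) / n0) (y := sJ J)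
      (by rw [le_div_iff₀ hn0pos]; linarith) hs
    refine ⟨i, ?_, ?_⟩
    · rw [div_lt_iff₀ hn0pos] at hi2
      linarith
    · rw [le_div_iff₀ hn0pos] at hi1
      have hX : 0 ≤ xJ J * sJ J ^ i := by positivity
      refine sub_x hJ hJ6 (wp_domJ hJ6 i) hX (sz_domJ hJ hJ6 i) N ?_
      have e : (if J = 3 then (2.09 : ℝ) else if J = 4 then 4.335 else if J = 5 then 9.3 else 19.75)
          = aJ J := rfl
      rw [e]
      rw [hn0] at hi1
      linarith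

/-- roots -/
theorem root_bound {x b : ℝ} (hx : 0 ≤ x) (hb : 0 ≤ b) (a q : ℕ) (hq : q ≠ 0)
    (h : x ^ a ≤ b ^ q) : x ^ ((a : ℝ) / (q : ℝ)) ≤ b := by
  have h1 : (x ^ a) ^ ((1 : ℝ) / (q : ℝ)) ≤ (b ^ q) ^ ((1 : ℝ) / (q : ℝ)) :=
    Real.rpow_le_rpow (by positivity) h (by positivity)
  rw [one_div, Real.pow_rpow_inv_natCast hb hq, ← Real.rpow_natCast, ← Real.rpow_mul hx] at h1
  rwa [← div_eq_mul_inv] at h1

theorem pow_bound (J : ℕ) (hJ : 3 ≤ J) (hJ6 : J ≤ 6) (N : ℝ) (hN : 1 ≤ N) (i : ℕ)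
    (h : N ≤ (aJ J * xJ J / 2) * sJ J ^ (i + 1)) :
    N ^ (th J) ≤ tJ J * (1 / gJ J) ^ (i + 1) := by
  have key : ∀ (a q : ℕ), q ≠ 0 → th J = (a : ℝ) / (q : ℝ) →
      (aJ J * xJ J / 2) ^ a ≤ tJ J ^ q → sJ J ^ a ≤ (1 / gJ J) ^ q →
      N ^ (th J) ≤ tJ J * (1 / gJ J) ^ (i + 1) := by
    intro a q hq hth h1 h2
    have hs := sJ_gt J
    have hx := xJ_pos J
    have hg := gJ_pos J
    have ha : 0 < aJ J := by unfold aJ; split_ifs <;> norm_num
    have ht : 0 < tJ J := by unfold tJ; split_ifs <;> norm_num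
    rw [hth]
    apply root_bound (by linarith) (by positivity) a q hq
    calc N ^ a ≤ ((aJ J * xJ J / 2) * sJ J ^ (i + 1)) ^ a :=
          pow_le_pow_left₀ (by linarith) h a
      _ = (aJ J * xJ J / 2) ^ a * (sJ J ^ a) ^ (i + 1) := by
          rw [mul_pow, ← pow_mul, ← pow_mul, mul_comm (i + 1) a]
      _ ≤ tJ J ^ q * ((1 / gJ J) ^ q) ^ (i + 1) := by
          apply mul_le_mul h1 (pow_le_pow_left₀ (by positivity) h2 _) (by positivity)
            (by positivity)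
      _ = (tJ J * (1 / gJ J) ^ (i + 1)) ^ q := by
          rw [mul_pow, ← pow_mul, ← pow_mul, mul_comm (i + 1) q]
  interval_cases J
  · exact key 3 4 (by norm_num) (by norm_num [th]) (by norm_num [aJ, xJ, tJ])
      (by norm_num [sJ, gJ])
  · exact key 27 100 (by norm_num) (by norm_num [th]) (by norm_num [aJ, xJ, tJ])
      (by norm_num [sJ, gJ])
  · exact key 23 200 (by norm_num) (by norm_num [th]) (by norm_num [aJ, xJ, tJ])
      (by norm_num [sJ, gJ])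
  · exact key 1 24 (by norm_num) (by norm_num [th]) (by norm_num [aJ, xJ, tJ])
      (by norm_num [sJ, gJ])

/-- **decay of the far mass** -/
theorem Fx_decay {J : ℕ} (hJ : 3 ≤ J) (hJ6 : J ≤ 6) (N : ℤ) (hN : 1 ≤ N) (n : ℕ)
    (hn : 12 * N ^ 2 ≤ n) : Fx J N n ≤ cst J * (N : ℝ) ^ (-th J) := by
  obtain ⟨i, h1, h2⟩ := scaleJ hJ hJ6 N hN
  have h3 := decayJ hJ hJ6 N hN n hn i h2
  have hN1 : (1 : ℝ) ≤ N := by exact_mod_cast hN
  have h4 := pow_bound J hJ hJ6 N hN1 i h1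
  have hg := gJ_pos J
  have hNp : 0 < (N : ℝ) ^ (th J) := Real.rpow_pos_of_pos (by linarith) _
  rw [Real.rpow_neg (by linarith), ← div_eq_mul_inv, le_div_iff₀ hNp]
  have hc : 0 < Cv J / (cL J * cv J) := by
    have h3 : 0 < Cv J := by unfold Cv; split_ifs <;> norm_num
    have := cL_pos J
    have := cv_pos J
    positivity
  have ht : 0 < tJ J := by unfold tJ; split_ifs <;> norm_num
  calc Fx J N n * (N : ℝ) ^ (th J)
      ≤ (Cv J / (cL J * cv J) * gJ J ^ i) * (tJ J * (1 / gJ J) ^ (i + 1)) :=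
        mul_le_mul h3 h4 hNp.le (by positivity)
    _ = Cv J / (cL J * cv J) * tJ J * (1 / gJ J) := by
        rw [pow_succ, one_div, inv_pow]
        field_simp
    _ ≤ cst J := by
        interval_cases J <;> norm_num [Cv, cL, cv, tJ, gJ, cst]

end Pool.Agent.TH232.WX
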