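import Pool.Agent.TH232.WX.Up
import Pool.Agent.H978R3.Wedge.Exact

set_option autoImplicit false

/-! The domains in the wedges, the sweeps and the sizes. -/

namespace Pool.Agent.TH232.WX

open H978R2.Hex H978R3.Wedge Pool.Agent.TH232.Hex Complex

/-- the parameters of the domains in the wedge `J` -/
structure WP (J : ℕ) (p : Par) : Prop where
  w4 : p.a4 = 2
  w3 : p.c3 = 1
  w2 : J ≤ 5 → p.R = 0
  w1 : J ≤ 4 → p.b = 1
  w0 : J ≤ 3 → p.d = 2

theorem wp_push {J : ℕ} {p : Par} (h : WP J p) (hJ6 : J ≤ 6) (i : ℕ) (hi : i < J) :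
    WP J (push p i) := by
  obtain ⟨w4, w3, w2, w1, w0⟩ := h
  have hi6 : i < 6 := by omega
  interval_cases i <;> refine ⟨?_, ?_, ?_, ?_, ?_⟩ <;> simp only [push] <;>
    first | assumption | (intro h; first | omega | (exact w2 h) | (exact w1 h) | (exact w0 h))

theorem wp_st {J : ℕ} {p : Par} (h : WP J p) (hJ6 : J ≤ 6) (i : ℕ) (hi : i ≤ J) :
    WP J (st p i) := by
  induction i with
  | zero => exact h
  | succ i ih => exact wp_push (ih (by omega)) hJ6 i (by omega)

/-- sides without mass -/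
theorem zero_mass {J : ℕ} (hJ : 3 ≤ J) (hJ6 : J ≤ 6) {p : Par} (hp : Ok p) (h : WP J p) (k : ℤ)
    (hk : (J : ℤ) - 2 ≤ k) (hk1 : k ≠ 1) (hk5 : k ≤ 5) (n : ℕ) : Mass (Om p) n k = 0 := by
  obtain ⟨w4, w3, w2, w1, w0⟩ := h
  rcases eq_or_ne k 5 with rfl | h5
  · exact mass_five p hp (blocked p (Or.inl (by omega))) n
  · apply mass_zero p hp
    intro v z hv ha _ ho
    rw [adj_iff] at ha
    obtain ⟨o1, o2, o3, o4, o5, o6, o7⟩ := hv
    unfold Out Slit at ho
    interval_cases J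
    · have := w2 (by norm_num)
      have := w1 (by norm_num)
      have := w0 (by norm_num)
      push_cast at hk
      rcases lt_trichotomy v.2 0 with c | c | c <;> omega
    · have := w2 (by norm_num)
      have := w1 (by norm_num)
      push_cast at hk
      rcases lt_trichotomy v.2 0 with c | c | c <;> omega
    · have := w2 (by norm_num)
      push_cast at hk
      rcases lt_trichotomy v.2 0 with c | c | c <;> omega
    · push_cast at hk
      rcases lt_trichotomy v.2 0 with c | c | c <;> omega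

/-- the side `1` of the wedge `J = 3` -/
theorem one_mass {p p' : Par} (hp' : Ok p') (h' : WP 3 p') (hp : Ok p) (h : WP 3 p) (n : ℕ) :
    Mass (Om p') n 1 ≤ Mass (Om p) n 1 := by
  apply mass_le_of_sub
  intro m l hl
  unfold Land at hl ⊢
  rw [Finset.mem_filter] at hl ⊢
  obtain ⟨h1, h2, h3⟩ := hl
  have ho := class_om p' hp' m l h1 h2
  rw [h3] at ho
  obtain ⟨w4, w3, w2, w1, w0⟩ := h'
  have e1 := w1 (by norm_num)
  have e0 := w0 (by norm_num)
  have e2 := w2 (by norm_num)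
  obtain ⟨u4, u3, u2, u1, u0⟩ := h
  rw [mem_P] at h1
  match l, h1.1, h1.2 with
  | [z, y], hv, hm =>
    obtain ⟨rfl, rfl⟩ := hv
    exact absurd (om_base hp') h2
  | z :: y :: x :: t, hv, hm =>
    obtain ⟨a1, a2, a3, a4, a5⟩ := hv
    simp only [List.headD_cons] at ho h2
    unfold Out Slit at ho
    have ha1 := a1
    rw [adj_iff] at a1
    obtain ⟨o1, o2, o3, o4, o5, o6, o7⟩ := a3
    rw [e1] at o3 ho
    rw [e0] at o4
    have hz : 1 < z.1 + z.2 := by omega
    have hy1 : y.1 = 1 ∧ y.2 = 0 := by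
      rcases lt_trichotomy y.2 0 with c | c | c <;> omega
    have hy : y = (1, 0) := Prod.ext hy1.1 hy1.2
    subst hy
    match x, t, a5, hm with
    | x, [], a5, hm =>
      obtain ⟨_, rfl⟩ := a5
      refine ⟨?_, ?_, h3⟩
      · rw [mem_P]
        refine ⟨?_, hm⟩
        refine ⟨ha1, a2, om_base hp, a4, ?_⟩
        exact ⟨rfl, rfl⟩
      · simp only [List.headD_cons]
        rintro ⟨q1, q2, q3, q4, q5, q6, q7⟩
        rw [u1 (by norm_num)] at q3
        omega
    | x, x2 :: t2, a5, hm =>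
      exfalso
      have hg : (1, 0) ∈ x :: x2 :: t2 := by
        have : ∀ (l : List V) (y0 : V), Val (Om p') (y0 :: l) → 2 ≤ l.length → (1, 0) ∈ l := by
          intro l
          induction l with
          | nil => intro y0 _ h; simp at h
          | cons a l ih =>
            intro y0 hv hlen
            match l, hv, hlen, ih with
            | [], _, hlen, _ => simp at hlen
            | [b], hv, _, _ =>
              obtain ⟨_, _, _, _, hv2⟩ := hv
              obtain ⟨h, _⟩ := hv2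
              rw [h]
              exact List.mem_cons_self
            | b :: c :: l, hv, _, ih =>
              obtain ⟨_, _, _, _, hv2⟩ := hv
              exact List.mem_cons_of_mem _ (ih a hv2 (by simp))
        exact this _ _ a5 (by simp)
      exact a4 hg

/-- one push -/
theorem push_up {J : ℕ} (hJ : 3 ≤ J) (hJ6 : J ≤ 6) {p : Par} (h : Good p) (hw : WP J p) (i : ℕ)
    (hi : i < J) (S : Finset V) (hS : ∀ x, Om (push p i) x → x ∈ S) (n : ℕ) (hn : S.card ≤ n) :
    ∑ k ∈ Finset.Icc (-4 : ℤ) 5, wJ J (i + 1) k * Mass (Om (push p i)) n k ≤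
      ∑ k ∈ Finset.Icc (-4 : ℤ) 5, wJ J i k * Mass (Om p) n k := by
  have hw' := wp_push hw hJ6 i hi
  have hg' := good_push h i (by omega)
  refine pot_up (fun k => Mass (Om p) n k) (fun k => Mass (Om (push p i)) n k) ((i : ℤ) - 3)
    (cAJ J i) (cBJ J i) (wJ J i) (wJ J (i + 1))
    (mass_identity p h.ok S (fun x hx => hS x (om_push h i (by omega) x hx)) n hn)
    (mass_identity _ hg'.ok S hS n hn) ?_ ?_ ?_ ?_ ?_
  · intro k _ hk
    exact mass_mono _ _ h.ok (om_push h i (by omega)) k (out_push i (by omega) k hk) n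
  · exact mass_zero _ hg'.ok _ (inactive_push h i (by omega)) n
  · exact mass_nonneg _ n _
  · intro k hk hk0
    rw [Finset.mem_Icc] at hk
    refine ⟨wJ_succ J i k hk0, ?_⟩
    rcases le_or_gt k ((J : ℤ) - 3) with h1 | h1
    · exact Or.inl ((certJ J hJ hJ6 i hi k hk.1 h1).1 hk0)
    · right
      have e : wJ J i k = 0 := by
        unfold wJ
        rw [vJ_near J k (Or.inr (by omega)) hJ hJ6]
        simp
      refine ⟨e, ?_⟩
      by_cases h3 : k = 1
      · have hJ3 : J = 3 := by omega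
        subst hJ3
        subst h3
        exact one_mass hg'.ok hw' h.ok hw n
      · rw [zero_mass hJ hJ6 hg'.ok hw' k (by omega) h3 hk.2 n]
        exact mass_nonneg _ n _
  · exact (certJ J hJ hJ6 i hi _ (by omega) (by omega)).2 rfl

/-- the potential -/
noncomputable def Psi (J : ℕ) (p : Par) (n : ℕ) : ℝ :=
  ∑ k ∈ Finset.Icc (-4 : ℤ) 5, vJ J k * Mass (Om p) n k

/-- one sweep -/
theorem sweep_up {J : ℕ} (hJ : 3 ≤ J) (hJ6 : J ≤ 6) {p : Par} (h : Good p) (hw : WP J p)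
    (S : Finset V) (hS : ∀ x, Om (st p J) x → x ∈ S) (n : ℕ) (hn : S.card ≤ n) :
    Psi J (st p J) n ≤ gJ J * Psi J p n := by
  have key : ∀ i : ℕ, i ≤ J → ∑ k ∈ Finset.Icc (-4 : ℤ) 5, wJ J i k * Mass (Om (st p i)) n k ≤
      ∑ k ∈ Finset.Icc (-4 : ℤ) 5, wJ J 0 k * Mass (Om p) n k := by
    intro i
    induction i with
    | zero => intro _; exact le_rfl
    | succ i ih =>
      intro hi
      refine le_trans ?_ (ih (by omega))
      exact push_up hJ hJ6 (good_st h i (by omega)) (wp_st hw hJ6 i (by omega)) i (by omega) S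
        (fun x hx => hS x (om_st h (i := i + 1) (by omega) (by omega) x hx)) n hn
  have h8 := key J le_rfl
  have e0 : ∑ k ∈ Finset.Icc (-4 : ℤ) 5, wJ J 0 k * Mass (Om p) n k = Psi J p n := by
    unfold Psi
    exact Finset.sum_congr rfl fun k hk => by rw [wJ_zero J hJ hJ6 k hk]
  have e8 : ∑ k ∈ Finset.Icc (-4 : ℤ) 5, wJ J J k * Mass (Om (st p J)) n k =
      Psi J (st p J) n / gJ J := by
    unfold Psi
    rw [Finset.sum_div]
    exact Finset.sum_congr rfl fun k hk => by rw [wJ_last J hJ hJ6 k]; ring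
  rw [e0, e8, div_le_iff₀ (gJ_pos J)] at h8
  linarith

/-! ### the comparison functional -/

/-- the second coefficient of the comparison functional -/
noncomputable def lB (J : ℕ) : ℝ :=
  if J = 3 then -1 else if J = 4 then -(2 / 3) else if J = 5 then -(2 / 5) else -(1 / 5)

/-- lower bound for the functional on the far sides -/
noncomputable def cL (J : ℕ) : ℝ :=
  if J = 3 then 1.306 else if J = 4 then 0.998 else if J = 5 then 0.752 else 0.565

/-- ratios -/
noncomputable def cv (J : ℕ) : ℝ :=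
  if J = 3 then 414500 else if J = 4 then 475000 else if J = 5 then 584500 else 728100

noncomputable def Cv (J : ℕ) : ℝ :=
  if J = 3 then 707200 else if J = 4 then 848200 else if J = 5 then 928600 else 1000100

theorem cmpJ (J : ℕ) (hJ : 3 ≤ J) (hJ6 : J ≤ 6) (k : ℤ) (hk : -3 ≤ k) (hk2 : k ≤ (J : ℤ) - 4) :
    cL J ≤ F 1 (lB J) k ∧ cv J * F 1 (lB J) k ≤ vJ J k ∧ vJ J k ≤ Cv J * F 1 (lB J) k := by
  have a1 := r2_gt
  have a2 := r2_lt
  have a3 := s8_gt
  have a4 := s8_lt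
  have a5 := c8_gt
  have a6 := c8_lt
  obtain ⟨r, hr⟩ : ∃ r, r = Real.sqrt 2 / 2 := ⟨_, rfl⟩
  obtain ⟨s, hs⟩ : ∃ s, s = Real.sin (Real.pi / 8) := ⟨_, rfl⟩
  obtain ⟨c, hc⟩ : ∃ c, c = Real.cos (Real.pi / 8) := ⟨_, rfl⟩
  rw [← hr] at a1 a2
  rw [← hs] at a3 a4
  rw [← hc] at a5 a6
  interval_cases J <;> push_cast at hk2 <;> norm_num at hk2 <;> interval_cases k <;>
    simp only [F_m4, F_m3, F_m2, F_m1, F_0, F_1, F_2, F_3, F_4, F_5, ← hr, ← hs, ← hc] <;>
    refine ⟨?_, ?_, ?_⟩ <;> norm_num [vJ, lB, cL, cv, Cv] <;> linarith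

theorem nearJ (J : ℕ) (hJ : 3 ≤ J) (hJ6 : J ≤ 6) :
    0 ≤ F 1 (lB J) (-4) ∧ 0 ≤ F 1 (lB J) ((J : ℤ) - 3) ∧ (J = 3 → 0 ≤ F 1 (lB J) 1) := by
  have a1 := r2_gt
  have a2 := r2_lt
  have a3 := s8_gt
  have a4 := s8_lt
  have a5 := c8_gt
  have a6 := c8_lt
  obtain ⟨r, hr⟩ : ∃ r, r = Real.sqrt 2 / 2 := ⟨_, rfl⟩
  obtain ⟨s, hs⟩ : ∃ s, s = Real.sin (Real.pi / 8) := ⟨_, rfl⟩
  obtain ⟨c, hc⟩ : ∃ c, c = Real.cos (Real.pi / 8) := ⟨_, rfl⟩
  rw [← hr] at a1 a2
  rw [← hs] at a3 a4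
  rw [← hc] at a5 a6
  interval_cases J
  · refine ⟨?_, ?_, fun _ => ?_⟩
    · rw [F_m4]; norm_num [lB]
    · rw [show ((3 : ℕ) : ℤ) - 3 = 0 by norm_num, F_0]; norm_num
    · rw [F_1, ← hs, ← hc]; norm_num [lB]; linarith
  · refine ⟨?_, ?_, fun h => by omega⟩
    · rw [F_m4]; norm_num [lB]
    · rw [show ((4 : ℕ) : ℤ) - 3 = 1 by norm_num, F_1, ← hs, ← hc]; norm_num [lB]; linarith
  · refine ⟨?_, ?_, fun h => by omega⟩
    · rw [F_m4]; norm_num [lB]
    · rw [show ((5 : ℕ) : ℤ) - 3 = 2 by norm_num, F_2, ← hr]; norm_num [lB]; linarith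
  · refine ⟨?_, ?_, fun h => by omega⟩
    · rw [F_m4]; norm_num [lB]
    · rw [show ((6 : ℕ) : ℤ) - 3 = 3 by norm_num, F_3, ← hs, ← hc]; norm_num [lB]; linarith

end Pool.Agent.TH232.WX
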