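import Pool.Agent.TH232.WX.Dec
import Pool.Agent.TH232.Hex.Low
import Pool.Agent.H978R3.Wedge.Final

set_option autoImplicit false

/-! Walks in the wedges: decay of the far mass and the exact masses of the two sides. -/

namespace Pool.Agent.TH232.WX

open H978R2.Hex H978R3.Wedge Pool.Agent.TH232.Hex Complex Filter Topology

/-- indices of the landing walks of the truncated wedges -/
theorem idx {J : ℕ} (hJ : 3 ≤ J) (hJ6 : J ≤ 6) (N : ℤ) (hN : 1 ≤ N) {m : ℕ} {l : List V}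
    (hl : l ∈ P (Om (xPar J N)) m) (h : ¬ Om (xPar J N) (l.headD (0, 0))) :
    (Wg J (l.headD (0, 0)) → -2 ≤ W l ∧ W l ≤ (J : ℤ) - 4) ∧
    (¬ Wg J (l.headD (0, 0)) → (W l = -4 ∧ Slit (l.headD (0, 0))) ∨
      (W l = (J : ℤ) - 3 ∧ ¬ Slit (l.headD (0, 0))) ∨
      (J = 3 ∧ W l = 1 ∧ ¬ Slit (l.headD (0, 0)))) ∧ l.headD (0, 0) ≠ (0, 0) := by
  have h5 : W l ≠ 5 := by
    apply no_five _ (ok_x J N hN) _ hl h
    exact blocked _ (Or.inl le_rfl)
  obtain ⟨v, h1, h2, h3, h4⟩ := land_adj _ (ok_x J N hN) hl h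
  have ho := class_om _ (ok_x J N hN) m l hl h
  have hne : l.headD (0, 0) ≠ (0, 0) := fun h0 => h5 (h3 h0).1
  refine ⟨?_, ?_, hne⟩
  · intro hw
    rw [om_x J hJ hJ6 N hN] at h1 h
    set z := l.headD (0, 0) with hz
    have hx : ¬ Hx N z := fun c => h ⟨hw, c⟩
    clear h h3 h4
    clear_value z
    rw [adj_iff] at h2
    obtain ⟨w1, w2, w3, w4⟩ := hw
    obtain ⟨⟨u1, u2, u3, u4⟩, u5⟩ := h1
    unfold Hx at hx u5
    unfold Out xPar hexPar Slit at ho
    simp only at ho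
    interval_cases J <;> norm_num at ho w2 w3 w4 u2 u3 u4 ⊢ <;>
      rcases ho with h | h | h | h | h | h | h | h | h | h <;>
        rcases h2 with h2 | h2 | h2 | h2 <;> omega
  · intro hw
    rw [om_x J hJ hJ6 N hN] at h1
    set z := l.headD (0, 0) with hz
    clear h h3 h4
    clear_value z
    rw [adj_iff] at h2
    obtain ⟨⟨u1, u2, u3, u4⟩, u5⟩ := h1
    unfold Wg at hw
    unfold Hx at u5
    unfold Out xPar hexPar Slit at ho
    unfold Slit
    simp only at ho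
    interval_cases J <;> norm_num at ho hw u2 u3 u4 ⊢ <;>
      rcases ho with h | h | h | h | h | h | h | h | h | h <;>
        rcases h2 with h2 | h2 | h2 | h2 <;> omega

/-- critical partition function of the walks in `D` with last vertex in `Q` -/
noncomputable def Zq (D Q : V → Prop) : ℝ :=
  ∑' m : ℕ, (Set.ncard {f : Fin (m + 2) → V | f ∈ WalkSet D m ∧ Q (f (Fin.last (m + 1)))} : ℝ) *
    xc ^ m

theorem xd_om {J : ℕ} (hJ : 3 ≤ J) (hJ6 : J ≤ 6) (N : ℤ) (hN : 1 ≤ N) :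
    (fun v => Wg J v ∧ Hx N v) = Om (xPar J N) := by
  funext v
  exact propext (om_x J hJ hJ6 N hN v).symm

theorem xs_empty {J : ℕ} (hJ : 3 ≤ J) (hJ6 : J ≤ 6) (N : ℤ) (hN : 1 ≤ N) (n m : ℕ)
    (hn : 12 * N ^ 2 ≤ n) (hm : n < m) : WalkSet (fun v => Wg J v ∧ Hx N v) m = ∅ := by
  rw [Set.eq_empty_iff_forall_notMem]
  intro f hf
  rw [xd_om hJ hJ6 N hN] at hf
  have h := rl_mem hf
  rw [P_empty _ (fun v hv => x_finite J hJ hJ6 N hN v hv) m ((w_card N hN n hn).trans_lt hm)] at h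
  exact Finset.notMem_empty _ h

theorem Zq_sum {J : ℕ} (hJ : 3 ≤ J) (hJ6 : J ≤ 6) (N : ℤ) (hN : 1 ≤ N) (n : ℕ)
    (hn : 12 * N ^ 2 ≤ n) (Q : V → Prop) :
    Zq (fun v => Wg J v ∧ Hx N v) Q = ∑ m ∈ Finset.range (n + 1),
      (Set.ncard {f : Fin (m + 2) → V | f ∈ WalkSet (fun v => Wg J v ∧ Hx N v) m ∧
        Q (f (Fin.last (m + 1)))} : ℝ) * xc ^ m := by
  unfold Zq
  apply tsum_eq_sum
  intro m hm
  rw [Finset.mem_range, not_lt] at hm
  rw [xs_empty hJ hJ6 N hN n m hn (by omega)]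
  simp

theorem Zq_eq {J : ℕ} (hJ : 3 ≤ J) (hJ6 : J ≤ 6) (N : ℤ) (hN : 1 ≤ N) (n : ℕ)
    (hn : 12 * N ^ 2 ≤ n) (Q : V → Prop) [DecidablePred Q]
    (hQ : ∀ z, Q z → ¬ Om (xPar J N) z) (T : Finset ℤ)
    (hT : ∀ m, ∀ l ∈ P (Om (xPar J N)) m, ¬ Om (xPar J N) (l.headD (0, 0)) →
      (Q (l.headD (0, 0)) ↔ W l ∈ T)) :
    Zq (fun v => Wg J v ∧ Hx N v) Q = ∑ k ∈ T, Mass (Om (xPar J N)) n k := by
  rw [Zq_sum hJ hJ6 N hN n hn, ← sum_index (Om (xPar J N)) Q T hT n]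
  refine Finset.sum_congr rfl fun m _ => ?_
  rw [xc_eq]
  congr 2
  rw [← ncard_eq m (fun z => ¬ Om (xPar J N) z ∧ Q z)]
  · rw [xd_om hJ hJ6 N hN]
    congr 1
    ext f
    simp only [Set.mem_ofPred_eq]
    constructor
    · rintro ⟨h1, h2⟩
      exact ⟨h1, hQ _ h2, h2⟩
    · rintro ⟨h1, h2, h3⟩
      exact ⟨h1, h3⟩
  · intro l hl hQl ht
    have hne := (idx hJ hJ6 N hN hl hQl.1).2.2
    obtain ⟨z, t, rfl, hg, hlen⟩ := good_of_mem hl
    simp only [List.headD_cons, List.tail_cons] at hQl ht hne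
    have h1 := hg.last
    rcases List.eq_nil_or_concat t with h | ⟨s, a, h⟩
    · rw [h] at hlen; simp at hlen
    · subst h
      rw [List.concat_eq_append] at ht h1
      have ha : a = (0, 0) := by simpa using h1
      rcases List.mem_append.1 ht with h2 | h2
      · have h3 := hg.om z (by simpa using h2)
        exact hQl.1 h3
      · rw [List.mem_singleton] at h2
        exact hne (h2.trans ha)

/-- the far mass -/
theorem Zc_x {J : ℕ} (hJ : 3 ≤ J) (hJ6 : J ≤ 6) (N : ℤ) (hN : 1 ≤ N) (n : ℕ)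
    (hn : 12 * N ^ 2 ≤ n) : Zc (Wg J) N = Fx J N n := by
  have h := Zq_eq hJ hJ6 N hN n hn (fun z => Wg J z ∧ ¬ Hx N z)
    (fun z hz h => hz.2 ((om_x J hJ hJ6 N hN z).1 h).2)
    (Finset.Icc (-2 : ℤ) ((J : ℤ) - 4)) ?_
  · unfold Fx
    rw [← h]
    rfl
  · intro m l hl hout
    obtain ⟨i1, i2, i3⟩ := idx hJ hJ6 N hN hl hout
    rw [Finset.mem_Icc]
    constructor
    · intro hz
      exact i1 hz.1
    · intro hk
      by_cases hw : Wg J (l.headD (0, 0))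
      · exact ⟨hw, fun hx => hout ((om_x J hJ hJ6 N hN _).2 ⟨hw, hx⟩)⟩
      · exfalso
        rcases i2 hw with a | a | a <;> omega

/-- the mass on the lower side -/
theorem Z_low {J : ℕ} (hJ : 3 ≤ J) (hJ6 : J ≤ 6) (N : ℤ) (hN : 1 ≤ N) (n : ℕ)
    (hn : 12 * N ^ 2 ≤ n) :
    Zq (fun v => Wg J v ∧ Hx N v) Slit = Mass (Om (xPar J N)) n (-4) := by
  have h := Zq_eq hJ hJ6 N hN n hn Slit (fun z hz h => om_not_slit h hz) {-4} ?_
  · rw [h, Finset.sum_singleton]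
  · intro m l hl hout
    obtain ⟨i1, i2, i3⟩ := idx hJ hJ6 N hN hl hout
    rw [Finset.mem_singleton]
    by_cases hw : Wg J (l.headD (0, 0))
    · have a := i1 hw
      constructor
      · intro hs
        exfalso
        have := hw.1 hs.1
        have := hs.2
        omega
      · intro hk; omega
    · rcases i2 hw with a | a | a
      · exact ⟨fun _ => a.1, fun _ => a.2⟩
      · exact ⟨fun hs => absurd hs a.2, fun hk => by omega⟩
      · exact ⟨fun hs => absurd hs a.2.2, fun hk => by omega⟩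

/-- the mass on the upper side -/
theorem Z_up {J : ℕ} (hJ : 4 ≤ J) (hJ6 : J ≤ 6) (N : ℤ) (hN : 1 ≤ N) (n : ℕ)
    (hn : 12 * N ^ 2 ≤ n) :
    Zq (fun v => Wg J v ∧ Hx N v) (fun z => ¬ Wg J z ∧ ¬ Slit z) =
      Mass (Om (xPar J N)) n ((J : ℤ) - 3) := by
  have h := Zq_eq (by omega) hJ6 N hN n hn (fun z => ¬ Wg J z ∧ ¬ Slit z)
    (fun z hz h => hz.1 ((om_x J (by omega) hJ6 N hN z).1 h).1) {(J : ℤ) - 3} ?_
  · rw [h, Finset.sum_singleton]
  · intro m l hl hout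
    obtain ⟨i1, i2, i3⟩ := idx (by omega) hJ6 N hN hl hout
    rw [Finset.mem_singleton]
    by_cases hw : Wg J (l.headD (0, 0))
    · have a := i1 hw
      constructor
      · intro hs
        exact absurd hw hs.1
      · intro hk; omega
    · rcases i2 hw with a | a | a
      · exact ⟨fun hs => absurd a.2 hs.2, fun hk => by omega⟩
      · exact ⟨fun _ => a.1, fun _ => ⟨hw, a.2⟩⟩
      · omega

/-- no mass outside the indices of `idx` -/
theorem x_zero {J : ℕ} (hJ : 4 ≤ J) (hJ6 : J ≤ 6) (N : ℤ) (hN : 1 ≤ N) (k : ℤ)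
    (hk : k = -3 ∨ (J : ℤ) - 2 ≤ k) (n : ℕ) : Mass (Om (xPar J N)) n k = 0 := by
  apply mass_none
  intro m l hl hout hW
  obtain ⟨i1, i2, i3⟩ := idx (by omega) hJ6 N hN hl hout
  by_cases hw : Wg J (l.headD (0, 0))
  · have a := i1 hw
    omega
  · rcases i2 hw with a | a | a <;> omega

/-- the identity of the truncated wedge -/
theorem x_ident {J : ℕ} (hJ : 4 ≤ J) (hJ6 : J ≤ 6) (N : ℤ) (hN : 1 ≤ N) (n : ℕ)
    (hn : 12 * N ^ 2 ≤ n) (A B : ℝ) :
    ∑ k ∈ Finset.Icc (-2 : ℤ) ((J : ℤ) - 4), F A B k * Mass (Om (xPar J N)) n k +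
      F A B ((J : ℤ) - 3) * Mass (Om (xPar J N)) n ((J : ℤ) - 3) +
      F A B (-4) * Mass (Om (xPar J N)) n (-4) = A := by
  have h := sum_F (fun k => Mass (Om (xPar J N)) n k) A B
    (mass_identity _ (ok_x J N hN) _ (fun v hv => x_finite J (by omega) hJ6 N hN v hv) n
      (w_card N hN n hn))
  have e1 : ∑ k ∈ insert (-4) (insert ((J : ℤ) - 3) (Finset.Icc (-2 : ℤ) ((J : ℤ) - 4))),
      F A B k * Mass (Om (xPar J N)) n k =
      ∑ k ∈ Finset.Icc (-4 : ℤ) 5, F A B k * Mass (Om (xPar J N)) n k := by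
    apply Finset.sum_subset
    · intro k hk
      simp only [Finset.mem_insert, Finset.mem_Icc] at hk ⊢
      omega
    · intro k hk hk'
      simp only [Finset.mem_insert, Finset.mem_Icc, not_or, not_and, not_le] at hk hk'
      rw [x_zero hJ hJ6 N hN k (by omega) n, mul_zero]
  have n1 : ((J : ℤ) - 3) ∉ Finset.Icc (-2 : ℤ) ((J : ℤ) - 4) := by
    rw [Finset.mem_Icc]; omega
  have n2 : (-4 : ℤ) ∉ insert ((J : ℤ) - 3) (Finset.Icc (-2 : ℤ) ((J : ℤ) - 4)) := by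
    simp only [Finset.mem_insert, Finset.mem_Icc, not_or]
    omega
  rw [← e1, Finset.sum_insert n2, Finset.sum_insert n1] at h
  linarith

theorem abs_far (J : ℕ) (N : ℤ) (n : ℕ) (f : ℤ → ℝ) (hf : ∀ k, |f k| ≤ 1) :
    |∑ k ∈ Finset.Icc (-2 : ℤ) ((J : ℤ) - 4), f k * Mass (Om (xPar J N)) n k| ≤ Fx J N n := by
  unfold Fx
  refine (Finset.abs_sum_le_sum_abs _ _).trans (Finset.sum_le_sum fun k _ => ?_)
  rw [abs_mul, abs_of_nonneg (mass_nonneg _ n k)]
  have := mass_nonneg (Om (xPar J N)) n k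
  have := hf k
  nlinarith

/-- cosine and sine of the upper side -/
noncomputable def cj (J : ℕ) : ℝ := Real.cos ((((J : ℤ) - 3 : ℤ) : ℝ) * (Real.pi / 8))
noncomputable def sj (J : ℕ) : ℝ := Real.sin ((((J : ℤ) - 3 : ℤ) : ℝ) * (Real.pi / 8))

theorem cj_pos {J : ℕ} (hJ : 4 ≤ J) (hJ6 : J ≤ 6) : 0.38 < cj J ∧ 0 ≤ sj J ∧ sj J ≤ 1 := by
  have hpi := Real.pi_pos
  refine ⟨?_, ?_, Real.sin_le_one _⟩
  · unfold cj
    interval_cases J
    · have h := c8_gt
      rw [show (((((4 : ℕ) : ℤ) - 3 : ℤ) : ℝ)) * (Real.pi / 8) = Real.pi / 8 by push_cast; ring]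
      linarith
    · have h := r2_gt
      rw [show (((((5 : ℕ) : ℤ) - 3 : ℤ) : ℝ)) * (Real.pi / 8) = Real.pi / 4 by push_cast; ring,
        Real.cos_pi_div_four]
      linarith
    · have h := s8_gt
      rw [show (((((6 : ℕ) : ℤ) - 3 : ℤ) : ℝ)) * (Real.pi / 8) = 3 * (Real.pi / 8) by
        push_cast; ring, cos_3]
      linarith
  · unfold sj
    apply Real.sin_nonneg_of_nonneg_of_le_pi
    · have : (0 : ℝ) ≤ (((J : ℤ) - 3 : ℤ) : ℝ) := by exact_mod_cast (by omega : (0 : ℤ) ≤ (J : ℤ) - 3)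
      positivity
    · have : (((J : ℤ) - 3 : ℤ) : ℝ) ≤ 3 := by exact_mod_cast (by omega : (J : ℤ) - 3 ≤ 3)
      nlinarith

/-- the masses of the two sides -/
theorem sides {J : ℕ} (hJ : 4 ≤ J) (hJ6 : J ≤ 6) (N : ℤ) (hN : 1 ≤ N) (n : ℕ)
    (hn : 12 * N ^ 2 ≤ n) :
    |Mass (Om (xPar J N)) n ((J : ℤ) - 3) - 1 / cj J| ≤ 3 * Fx J N n ∧
    |Mass (Om (xPar J N)) n (-4) - sj J / cj J| ≤ 4 * Fx J N n := by
  obtain ⟨c0, s0, s1⟩ := cj_pos hJ hJ6
  have hcpos : 0 < cj J := by linarith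
  have h1 := x_ident hJ hJ6 N hN n hn 1 0
  have h2 := x_ident hJ hJ6 N hN n hn 0 1
  have f1 : ∀ k, F 1 0 k = Real.cos ((k : ℝ) * (Real.pi / 8)) := fun k => by unfold F; ring
  have f2 : ∀ k, F 0 1 k = Real.sin ((k : ℝ) * (Real.pi / 8)) := fun k => by unfold F; ring
  rw [F_m4] at h1 h2
  simp only [f1] at h1
  simp only [f2] at h2
  have a1 := abs_far J N n (fun k => Real.cos ((k : ℝ) * (Real.pi / 8))) (fun k => Real.abs_cos_le_one _)
  have a2 := abs_far J N n (fun k => Real.sin ((k : ℝ) * (Real.pi / 8))) (fun k => Real.abs_sin_le_one _)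
  rw [abs_le] at a1 a2
  set U := Mass (Om (xPar J N)) n ((J : ℤ) - 3) with hU
  set L := Mass (Om (xPar J N)) n (-4) with hL
  set X := ∑ k ∈ Finset.Icc (-2 : ℤ) ((J : ℤ) - 4),
    Real.cos ((k : ℝ) * (Real.pi / 8)) * Mass (Om (xPar J N)) n k with hX
  set Y := ∑ k ∈ Finset.Icc (-2 : ℤ) ((J : ℤ) - 4),
    Real.sin ((k : ℝ) * (Real.pi / 8)) * Mass (Om (xPar J N)) n k with hY
  change X + cj J * U + -0 * L = 1 at h1
  change Y + sj J * U + -1 * L = 0 at h2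
  have hF : 0 ≤ Fx J N n := Finset.sum_nonneg fun k _ => mass_nonneg _ _ _
  have e1 : U - 1 / cj J = -X / cj J := by field_simp; linarith
  have e2 : L - sj J / cj J = Y - sj J / cj J * X := by
    have : U = (1 - X) / cj J := by field_simp; linarith
    have h3 : L = Y + sj J * ((1 - X) / cj J) := by rw [← this]; linarith
    rw [h3]; field_simp; ring
  have hq : sj J / cj J ≤ 3 := by
    rw [div_le_iff₀ hcpos]
    linarith
  have hq0 : 0 ≤ sj J / cj J := div_nonneg s0 hcpos.le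
  have hXa : |X| ≤ Fx J N n := abs_le.2 a1
  have hYa : |Y| ≤ Fx J N n := abs_le.2 a2
  constructor
  · rw [e1, abs_div, abs_neg, abs_of_pos hcpos, div_le_iff₀ hcpos]
    nlinarith
  · rw [e2]
    calc |Y - sj J / cj J * X| ≤ |Y| + |sj J / cj J * X| := abs_sub _ _
      _ ≤ Fx J N n + 3 * Fx J N n := by
          rw [abs_mul, abs_of_nonneg hq0]
          have := abs_nonneg X
          nlinarith
      _ = 4 * Fx J N n := by ring

end Pool.Agent.TH232.WX
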