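import Pool.Agent.TH232.WX.Fin

set_option autoImplicit false

/-! The exact critical weights of the two sides of the wedges, and the slit plane. -/

namespace Pool.Agent.TH232.WX

open H978R2.Hex H978R3.Wedge Pool.Agent.TH232.Hex Complex Filter Topology

theorem walk_mono {D D' : V → Prop} (h : ∀ v, D v → D' v) (m : ℕ) :
    WalkSet D m ⊆ WalkSet D' m := by
  rintro f ⟨h0, h1, h2, h3, h4⟩
  exact ⟨h0, h1, h2, h3, fun i hi => h _ (h4 i hi)⟩

theorem walk_trunc {D : V → Prop} [DecidablePred D] {m : ℕ} {f : Fin (m + 2) → V}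
    (hf : f ∈ WalkSet D m) (N : ℤ) (hN : (m : ℤ) + 3 ≤ N) :
    f ∈ WalkSet (fun v => D v ∧ Hx N v) m := by
  have hv := rl_mem hf
  rw [mem_P] at hv
  have hb := val_box hv.1
  rw [hv.2] at hb
  obtain ⟨h0, h1, h2, h3, h4⟩ := hf
  refine ⟨h0, h1, h2, h3, fun i hi => ⟨h4 i hi, ?_⟩⟩
  have := hb (f i.castSucc) ((mem_rl f _).2 ⟨_, rfl⟩)
  rw [abs_le, abs_le] at this
  push_cast at this
  unfold Hx
  omega

theorem rpow_tendsto (K θ : ℝ) (hθ : 0 < θ) :
    Tendsto (fun N : ℕ => K * ((N : ℤ) : ℝ) ^ (-θ)) atTop (𝓝 0) := by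
  have h := (tendsto_rpow_neg_atTop hθ).comp tendsto_natCast_atTop_atTop (α := ℕ)
  have h2 := h.const_mul K
  rw [mul_zero] at h2
  refine h2.congr fun N => ?_
  simp

theorem hasSum_wedge {J : ℕ} (hJ : 3 ≤ J) (hJ6 : J ≤ 6) (Q : V → Prop) (b K θ : ℝ) (hθ : 0 < θ)
    (h : ∀ N : ℤ, 1 ≤ N → |Zq (fun v => Wg J v ∧ Hx N v) Q - b| ≤ K * (N : ℝ) ^ (-θ)) :
    HasSum (fun m : ℕ => (Set.ncard {f : Fin (m + 2) → V | f ∈ WalkSet (Wg J) m ∧
      Q (f (Fin.last (m + 1)))} : ℝ) * xc ^ m) b := by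
  set a : ℕ → ℝ := fun m : ℕ => (Set.ncard {f : Fin (m + 2) → V | f ∈ WalkSet (Wg J) m ∧
      Q (f (Fin.last (m + 1)))} : ℝ) * xc ^ m with ha
  set aN : ℤ → ℕ → ℝ := fun N m => (Set.ncard {f : Fin (m + 2) → V |
      f ∈ WalkSet (fun v => Wg J v ∧ Hx N v) m ∧ Q (f (Fin.last (m + 1)))} : ℝ) * xc ^ m with haN
  have ha0 : ∀ m, 0 ≤ a m := fun m => by
    have := xc_pos
    positivity
  have haN0 : ∀ N m, 0 ≤ aN N m := fun N m => by
    have := xc_pos
    positivity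
  have hle : ∀ N m, aN N m ≤ a m := by
    intro N m
    apply mul_le_mul_of_nonneg_right _ (pow_pos xc_pos m).le
    have hsub : {f : Fin (m + 2) → V | f ∈ WalkSet (fun v => Wg J v ∧ Hx N v) m ∧
        Q (f (Fin.last (m + 1)))} ⊆ {f : Fin (m + 2) → V | f ∈ WalkSet (Wg J) m ∧
        Q (f (Fin.last (m + 1)))} := fun f hf => ⟨walk_mono (fun v hv => hv.1) m hf.1, hf.2⟩
    exact_mod_cast Set.ncard_le_ncard hsub ((walk_finite (Wg J) m).subset fun f hf => hf.1)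
  have heq : ∀ (N : ℤ) (m : ℕ), (m : ℤ) + 3 ≤ N → a m = aN N m := by
    intro N m hm
    refine le_antisymm ?_ (hle N m)
    apply mul_le_mul_of_nonneg_right _ (pow_pos xc_pos m).le
    have hfin : {f : Fin (m + 2) → V | f ∈ WalkSet (fun v => Wg J v ∧ Hx N v) m ∧
        Q (f (Fin.last (m + 1)))}.Finite :=
      (walk_finite (Wg J) m).subset fun f hf => walk_mono (fun v hv => hv.1) m hf.1
    have hsub : {f : Fin (m + 2) → V | f ∈ WalkSet (Wg J) m ∧
        Q (f (Fin.last (m + 1)))} ⊆ {f : Fin (m + 2) → V |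
        f ∈ WalkSet (fun v => Wg J v ∧ Hx N v) m ∧
        Q (f (Fin.last (m + 1)))} := fun f hf => ⟨walk_trunc hf.1 N hm, hf.2⟩
    exact_mod_cast Set.ncard_le_ncard hsub hfin
  have hZ : ∀ (N : ℤ), 1 ≤ N → ∀ n : ℕ, 12 * N ^ 2 ≤ n →
      Zq (fun v => Wg J v ∧ Hx N v) Q = ∑ m ∈ Finset.range (n + 1), aN N m :=
    fun N hN n hn => Zq_sum hJ hJ6 N hN n hn Q
  have hlim := rpow_tendsto K θ hθ
  have hup : ∀ M : ℕ, ∑ m ∈ Finset.range M, a m ≤ b := by
    intro M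
    have h1 : ∀ᶠ N : ℕ in atTop, ∑ m ∈ Finset.range M, a m ≤ b + K * ((N : ℤ) : ℝ) ^ (-θ) := by
      filter_upwards [eventually_ge_atTop (M + 3)] with N hN
      have hN1 : (1 : ℤ) ≤ (N : ℤ) := by omega
      have h2 := h N hN1
      rw [abs_le] at h2
      have h3 := hZ N hN1 ((12 * (N : ℤ) ^ 2).toNat + M) (by
        have := Int.self_le_toNat (12 * (N : ℤ) ^ 2)
        push_cast
        omega)
      have h4 : ∑ m ∈ Finset.range M, a m = ∑ m ∈ Finset.range M, aN N m :=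
        Finset.sum_congr rfl fun m hm => heq N m (by
          have := Finset.mem_range.1 hm
          omega)
      have h5 : ∑ m ∈ Finset.range M, aN N m ≤
          ∑ m ∈ Finset.range ((12 * (N : ℤ) ^ 2).toNat + M + 1), aN N m := by
        apply Finset.sum_le_sum_of_subset_of_nonneg
        · intro m hm
          rw [Finset.mem_range] at hm ⊢
          omega
        · intro m _ _
          exact haN0 N m
      linarith [h2.2]
    have h6 : Tendsto (fun N : ℕ => b + K * ((N : ℤ) : ℝ) ^ (-θ)) atTop (𝓝 (b + 0)) :=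
      hlim.const_add b
    rw [add_zero] at h6
    exact ge_of_tendsto h6 h1
  rw [hasSum_iff_tendsto_nat_of_nonneg ha0]
  rw [tendsto_order]
  refine ⟨fun c hc => ?_, fun c hc => Eventually.of_forall fun M => (hup M).trans_lt hc⟩
  have h1 : ∀ᶠ N : ℕ in atTop, K * ((N : ℤ) : ℝ) ^ (-θ) < b - c :=
    hlim.eventually_lt_const (by linarith)
  obtain ⟨N, hN2, hN1⟩ := (h1.and (eventually_ge_atTop 1)).exists
  have hN1' : (1 : ℤ) ≤ (N : ℤ) := by omega
  have h2 := h N hN1'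
  rw [abs_le] at h2
  have h3 := hZ N hN1' (12 * (N : ℤ) ^ 2).toNat (Int.self_le_toNat _)
  filter_upwards [eventually_ge_atTop ((12 * (N : ℤ) ^ 2).toNat + 1)] with M hM
  have h4 : ∑ m ∈ Finset.range ((12 * (N : ℤ) ^ 2).toNat + 1), aN N m ≤
      ∑ m ∈ Finset.range M, a m := by
    calc ∑ m ∈ Finset.range ((12 * (N : ℤ) ^ 2).toNat + 1), aN N m
        ≤ ∑ m ∈ Finset.range ((12 * (N : ℤ) ^ 2).toNat + 1), a m :=
          Finset.sum_le_sum fun m _ => hle N m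
      _ ≤ _ := by
          apply Finset.sum_le_sum_of_subset_of_nonneg
          · intro m hm
            rw [Finset.mem_range] at hm ⊢
            omega
          · intro m _ _
            exact ha0 m
  linarith [h2.1]

/-- the truncated masses of the two sides -/
theorem sides_walks {J : ℕ} (hJ : 4 ≤ J) (hJ6 : J ≤ 6) (N : ℤ) (hN : 1 ≤ N) :
    |Zq (fun v => Wg J v ∧ Hx N v) (fun z => ¬ Wg J z ∧ ¬ Slit z) - 1 / cj J| ≤
      3 * cst J * (N : ℝ) ^ (-th J) ∧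
    |Zq (fun v => Wg J v ∧ Hx N v) Slit - sj J / cj J| ≤ 4 * cst J * (N : ℝ) ^ (-th J) := by
  obtain ⟨n, hn⟩ := big N
  obtain ⟨h1, h2⟩ := sides hJ hJ6 N hN n hn
  have h3 := Fx_decay (by omega) hJ6 N hN n hn
  rw [Z_up hJ hJ6 N hN n hn, Z_low (by omega) hJ6 N hN n hn]
  constructor <;> nlinarith

/-- the far mass -/
theorem far_walks {J : ℕ} (hJ : 3 ≤ J) (hJ6 : J ≤ 6) (N : ℤ) (hN : 1 ≤ N) :
    Zc (Wg J) N ≤ cst J * (N : ℝ) ^ (-th J) := by
  obtain ⟨n, hn⟩ := big N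
  rw [Zc_x hJ hJ6 N hN n hn]
  exact Fx_decay hJ hJ6 N hN n hn

/-- monotonicity in the domain -/
theorem Zc_mono' {E : V → Prop} {J : ℕ} (hJ : 3 ≤ J) (hJ6 : J ≤ 6) (hE : ∀ v, E v → Wg J v)
    (N : ℤ) (hN : 1 ≤ N) : Zc E N ≤ Zc (Wg J) N := by
  obtain ⟨n, hn⟩ := big N
  have hsub : ∀ m, Cross E N m ⊆ Cross (Wg J) N m := by
    rintro m f ⟨⟨h0, h1, h2, h3, h4⟩, h5, h6⟩
    exact ⟨⟨h0, h1, h2, h3, fun i hi => ⟨hE _ (h4 i hi).1, (h4 i hi).2⟩⟩, hE _ h5, h6⟩
  have hemp : ∀ m, m ∉ Finset.range (n + 1) → Cross (Wg J) N m = ∅ := by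
    intro m hm
    rw [Finset.mem_range, not_lt] at hm
    unfold Cross
    rw [xs_empty hJ hJ6 N hN n m hn (by omega)]
    simp
  have hfin : ∀ m, (Cross (Wg J) N m).Finite := by
    intro m
    apply (walk_finite (fun v => Wg J v ∧ Hx N v) m).subset
    intro f hf
    exact hf.1
  apply Summable.tsum_le_tsum
  · intro m
    apply mul_le_mul_of_nonneg_right _ (pow_pos xc_pos m).le
    exact_mod_cast Set.ncard_le_ncard (hsub m) (hfin m)
  · apply summable_of_ne_finset_zero (s := Finset.range (n + 1))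
    intro m hm
    have : Cross E N m = ∅ := Set.subset_eq_empty (hsub m) (hemp m hm)
    rw [this]
    simp
  · apply summable_of_ne_finset_zero (s := Finset.range (n + 1))
    intro m hm
    rw [hemp m hm]
    simp

/-! ### the slit plane -/

theorem slit_sub {p : Par} {X : ℝ} (hX : 0 ≤ X) (hs : Sz p X) (N : ℤ)
    (hN : 4.32567 * X ≤ 2 * (N : ℝ)) (v : V) (h : Om p v) : Om (hexPar N) v := by
  obtain ⟨s0, s1, s2, s3, s4, s5, s6, s7⟩ := hs
  have r0 : -(p.c1 : ℝ) + 2 ≤ 2 * N := by linarith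
  have r1 : -(p.a2 : ℝ) + 2 ≤ 2 * N := by linarith
  have r2 : 2 * (p.Q : ℝ) + 2 ≤ 2 * N := by linarith
  have r3 : (p.d : ℝ) + 2 ≤ 2 * N := by linarith
  have r4 : (p.b : ℝ) + 2 ≤ 2 * N := by linarith
  have r5 : 2 * (p.R : ℝ) + 2 ≤ 2 * N := by linarith
  have r6 : -(p.c3 : ℝ) + 2 ≤ 2 * N := by linarith
  have r7 : -(p.a4 : ℝ) + 2 ≤ 2 * N := by linarith
  have t0 : -p.c1 + 2 ≤ 2 * N := by exact_mod_cast r0
  have t1 : -p.a2 + 2 ≤ 2 * N := by exact_mod_cast r1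
  have t2 : 2 * p.Q + 2 ≤ 2 * N := by exact_mod_cast r2
  have t3 : p.d + 2 ≤ 2 * N := by exact_mod_cast r3
  have t4 : p.b + 2 ≤ 2 * N := by exact_mod_cast r4
  have t5 : 2 * p.R + 2 ≤ 2 * N := by exact_mod_cast r5
  have t6 : -p.c3 + 2 ≤ 2 * N := by exact_mod_cast r6
  have t7 : -p.a4 + 2 ≤ 2 * N := by exact_mod_cast r7
  refine om_mono ?_ ?_ ?_ ?_ ?_ ?_ ?_ ?_ h <;> simp only [hexPar] <;> omega

theorem wPar6 (N : ℤ) : wPar 6 N = hexPar N := by
  unfold wPar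
  simp [hexPar]

theorem slit_growth (N : ℤ) (hN : 1 ≤ N) (n : ℕ) (hn : 12 * N ^ 2 ≤ n) (j : ℕ)
    (hsub : ∀ v, Om (dom j) v → Om (hexPar N) v) : 0.52 * gr ^ j ≤ Fm 6 N n := by
  have hok : Ok (hexPar N) := by
    rw [← wPar6]
    exact ok_w 6 N hN
  set S := (Finset.Icc (-2 * N + 1) (2 * N) ×ˢ Finset.Icc (-N) N : Finset V) with hSdef
  have hS : ∀ v, Om (hexPar N) v → v ∈ S := fun v hv => hex_finite N v hv
  have hcard : S.card ≤ n := w_card N hN n hn
  have hgr : (1 : ℝ) ≤ gr := by unfold gr; norm_num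
  have key : ∀ i : ℕ, i ≤ j → gr ^ i * 9670000 ≤ Phi (dom i) n := by
    intro i
    induction i with
    | zero =>
      intro _
      rw [pow_zero, one_mul]
      exact (phi_slit (good_dom 0) S (fun x hx => hS x (hsub x (om_dom (Nat.zero_le j) x hx)))
        n hcard).1
    | succ i ih =>
      intro hi
      have h1 := ih (by omega)
      have h2 := sweep_pot (good_dom i) S
        (fun x hx => hS x (hsub x (om_dom (i := i + 1) (by omega) x hx))) n hcard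
      have h0 : (0 : ℝ) ≤ gr := by linarith
      calc gr ^ (i + 1) * 9670000 = gr * (gr ^ i * 9670000) := by rw [pow_succ]; ring
        _ ≤ gr * Phi (dom i) n := mul_le_mul_of_nonneg_left h1 h0
        _ ≤ _ := h2
  have h1 := key j le_rfl
  have h2 := (phi_slit (good_dom j) S (fun x hx => hS x (hsub x hx)) n hcard).2
  have m5 : Mass (Om (dom j)) n 5 ≤ Mass (Om (hexPar N)) n 5 := by
    apply mass_mono _ _ (good_dom j).ok hsub
    intro z hz
    refine out_gen _ _ 5 z hz ?_ ?_ ?_ ?_ ?_ ?_ ?_ ?_ <;> intro h <;> omega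
  have m4 : Mass (Om (dom j)) n (-4) ≤ Mass (Om (hexPar N)) n (-4) := by
    apply mass_mono _ _ (good_dom j).ok hsub
    intro z hz
    refine out_gen _ _ (-4) z hz ?_ ?_ ?_ ?_ ?_ ?_ ?_ ?_ <;> intro h <;> omega
  have n5 := F5_neg
  have n4 := F4_neg
  have c5 : F 1 (1 / 5) 5 * Mass (Om (hexPar N)) n 5 ≤ F 1 (1 / 5) 5 * Mass (Om (dom j)) n 5 :=
    mul_le_mul_of_nonpos_left m5 n5.le
  have c4 : F 1 (1 / 5) (-4) * Mass (Om (hexPar N)) n (-4) ≤
      F 1 (1 / 5) (-4) * Mass (Om (dom j)) n (-4) := mul_le_mul_of_nonpos_left m4 n4.le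
  have hid := sum_F (fun k => Mass (Om (hexPar N)) n k) 1 (1 / 5)
    (mass_identity _ hok S hS n hcard)
  have hz : ∀ k, k ∉ KF 6 ∪ KN 6 → Mass (Om (hexPar N)) n k = 0 := by
    intro k hk
    rw [← wPar6]
    exact all_index 6 N hN k hk n
  have e1 : ∑ k ∈ Finset.Icc (-4 : ℤ) 5, F 1 (1 / 5) k * Mass (Om (hexPar N)) n k =
      F 1 (1 / 5) 5 * Mass (Om (hexPar N)) n 5 + (F 1 (1 / 5) (-4) * Mass (Om (hexPar N)) n (-4) +
      ∑ k ∈ Finset.Icc (-2 : ℤ) 3, F 1 (1 / 5) k * Mass (Om (hexPar N)) n k) := by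
    have : ∑ k ∈ insert 5 (insert (-4) (Finset.Icc (-2 : ℤ) 3)),
        F 1 (1 / 5) k * Mass (Om (hexPar N)) n k =
        ∑ k ∈ Finset.Icc (-4 : ℤ) 5, F 1 (1 / 5) k * Mass (Om (hexPar N)) n k := by
      apply Finset.sum_subset
      · intro k hk
        simp only [Finset.mem_insert, Finset.mem_Icc] at hk ⊢
        omega
      · intro k hk hk'
        simp only [Finset.mem_insert, Finset.mem_Icc, not_or] at hk hk'
        rw [hz k ?_, mul_zero]
        rw [kf6, kn6]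
        simp only [Finset.mem_union, Finset.mem_insert, Finset.mem_Icc, Finset.mem_singleton,
          not_or]
        exact ⟨hk'.2.2, hk'.1, hk'.2.1⟩
    rw [← this, Finset.sum_insert (by simp), Finset.sum_insert (by simp)]
  have e2 : ∑ k ∈ Finset.Icc (-2 : ℤ) 3, F 1 (1 / 5) k * Mass (Om (hexPar N)) n k ≤
      51 / 50 * Fm 6 N n := by
    unfold Fm
    rw [kf6, wPar6, Finset.mul_sum]
    exact Finset.sum_le_sum fun k _ =>
      mul_le_mul_of_nonneg_right (F_le k) (mass_nonneg _ _ _)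
  rw [e1] at hid
  have hg0 : 0 < gr ^ j := pow_pos (by linarith) j
  linarith

/-- growth in the slit plane -/
theorem slit_lower (N : ℤ) (hN : 1 ≤ N) : 9 / 20 * (N : ℝ) ^ ((2 : ℝ) / 75) ≤ Zc (Wd 6) N := by
  obtain ⟨n, hn⟩ := big N
  rw [Zc_eq 6 N hN n hn]
  have hN1 : (1 : ℝ) ≤ N := by exact_mod_cast hN
  have hsc : ∃ j : ℕ, (N : ℝ) ≤ 43.2567 * 3.535 ^ (j + 1) ∧
      ∀ v, Om (dom j) v → Om (hexPar N) v := by
    by_cases hcase : (N : ℝ) < 43.2567
    · refine ⟨0, by norm_num; linarith, ?_⟩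
      intro v hv
      change Om p0 v at hv
      obtain ⟨o1, o2, o3, o4, o5, o6, o7⟩ := hv
      simp only [p0] at o1 o2 o3 o4 o5 o6 o7
      have hv2 : v.2 = 0 := by omega
      have := o6 hv2
      unfold Om hexPar
      simp only
      omega
    · push Not at hcase
      obtain ⟨i, hi1, hi2⟩ := exists_nat_pow_near (x := (N : ℝ) / 43.2567) (y := 3.535)
        (by rw [le_div_iff₀ (by norm_num)]; linarith) (by norm_num)
      refine ⟨i, ?_, ?_⟩
      · rw [div_lt_iff₀ (by norm_num)] at hi2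
        linarith
      · rw [le_div_iff₀ (by norm_num)] at hi1
        exact slit_sub (by positivity) (sz_dom i) N (by linarith)
  obtain ⟨j, hj1, hj2⟩ := hsc
  have h1 := slit_growth N hN n hn j hj2
  have hgr : 0 < gr := by unfold gr; norm_num
  have h2 : (N : ℝ) ^ (((2 : ℕ) : ℝ) / ((75 : ℕ) : ℝ)) ≤ 1.106 * gr ^ (j + 1) := by
    apply root_bound (by linarith) (by positivity) 2 75 (by norm_num)
    calc (N : ℝ) ^ 2 ≤ (43.2567 * 3.535 ^ (j + 1)) ^ 2 := pow_le_pow_left₀ (by linarith) hj1 2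
      _ = 43.2567 ^ 2 * (3.535 ^ 2) ^ (j + 1) := by
          rw [mul_pow, ← pow_mul, ← pow_mul, mul_comm (j + 1) 2]
      _ ≤ 1.106 ^ 75 * (gr ^ 75) ^ (j + 1) := by
          apply mul_le_mul _ _ (by positivity) (by positivity)
          · norm_num
          · apply pow_le_pow_left₀ (by norm_num)
            unfold gr
            norm_num
      _ = (1.106 * gr ^ (j + 1)) ^ 75 := by
          rw [mul_pow, ← pow_mul, ← pow_mul, mul_comm (j + 1) 75]
  norm_num at h2 ⊢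
  have hg0 : 0 < gr ^ j := pow_pos hgr j
  have h3 : 9 / 20 * (N : ℝ) ^ ((2 : ℝ) / 75) ≤ 0.52 * gr ^ j := by
    calc 9 / 20 * (N : ℝ) ^ ((2 : ℝ) / 75) ≤ 9 / 20 * (553 / 500 * gr ^ (j + 1)) := by
          apply mul_le_mul_of_nonneg_left h2 (by norm_num)
      _ = (9 / 20 * (553 / 500) * gr) * gr ^ j := by rw [pow_succ]; ring
      _ ≤ 0.52 * gr ^ j := by
          apply mul_le_mul_of_nonneg_right _ hg0.le
          unfold gr
          norm_num
  linarith

end Pool.Agent.TH232.WX
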