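import Pool.Agent.TH232.WX.Dom

set_option autoImplicit false

/-! The sizes of the domains in the wedges. -/

namespace Pool.Agent.TH232.WX

open H978R2.Hex H978R3.Wedge Pool.Agent.TH232.Hex Complex

noncomputable def sJ (J : ℕ) : ℝ :=
  if J = 3 then 2.03 else if J = 4 then 2.63 else if J = 5 then 3.01 else 3.255

noncomputable def xJ (J : ℕ) : ℝ :=
  if J = 3 then 33 else if J = 4 then 14 else if J = 5 then 3 else 1

noncomputable def al1 (J : ℕ) : ℝ :=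
  if J = 3 then 2.03 else if J = 4 then 2.63 else if J = 5 then 3.01 else 3.255

noncomputable def al2 (J : ℕ) : ℝ :=
  if J = 3 then 2.09 else if J = 4 then 4.28 else if J = 5 then 6.05 else 7.34

noncomputable def al3 (J : ℕ) : ℝ :=
  if J = 4 then 4.335 else if J = 5 then 9.14 else 13.29

noncomputable def al4 (J : ℕ) : ℝ := if J = 5 then 9.3 else 19.36

/-- bounds for the size -/
structure SzJ (J : ℕ) (p : Par) (X : ℝ) : Prop where
  s0 : -(p.c1 : ℝ) + 2 ≤ X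
  s1 : -(p.a2 : ℝ) + 2 ≤ al1 J * X
  s2 : 2 * (p.Q : ℝ) + 2 ≤ al2 J * X
  s3 : 4 ≤ J → (p.d : ℝ) + 2 ≤ al3 J * X
  s4 : 5 ≤ J → (p.b : ℝ) + 2 ≤ al4 J * X
  s5 : 6 ≤ J → 2 * (p.R : ℝ) + 2 ≤ 19.75 * X

theorem sz3 {p : Par} (h : Good p) (hw : WP 3 p) {X : ℝ} (hX : 33 ≤ X) (hs : SzJ 3 p X) :
    SzJ 3 (st p 3) (sJ 3 * X) := by
  obtain ⟨s0, s1, s2, s3, s4, s5⟩ := hs
  obtain ⟨⟨hb, hd, ha4, hc3, ha2, hc1, hR, hQ, b1, d2, a42, c31, a20, c11⟩, -⟩ := h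
  have w := hw.w0 (by norm_num)
  have e0 : (st p 3).c1 = p.a2 + 1 := by simp only [st, push]
  have e1 : (st p 3).a2 = (st p 3).c1 - 2 * p.Q - 1 := by simp only [st, push]
  have e2 : (st p 3).Q = (p.d - (st p 3).a2) / 2 + 1 := by simp only [st, push]
  generalize st p 3 = q at e0 e1 e2 ⊢
  have f2 : 2 * q.Q = p.d - q.a2 + 2 := by omega
  have rw0 : (p.d : ℝ) = 2 := by exact_mod_cast w
  have r0 : (q.c1 : ℝ) = p.a2 + 1 := by exact_mod_cast e0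
  have r1 : (q.a2 : ℝ) = q.c1 - 2 * p.Q - 1 := by exact_mod_cast e1
  have r2 : 2 * (q.Q : ℝ) = p.d - q.a2 + 2 := by exact_mod_cast f2
  norm_num [al1, al2, al3, al4] at s0 s1 s2
  refine ⟨?_, ?_, ?_, fun h => by omega, fun h => by omega, fun h => by omega⟩ <;>
    norm_num [al1, al2, al3, al4, sJ] <;> linarith

theorem sz4 {p : Par} (h : Good p) (hw : WP 4 p) {X : ℝ} (hX : 14 ≤ X) (hs : SzJ 4 p X) :
    SzJ 4 (st p 4) (sJ 4 * X) := by
  obtain ⟨s0, s1, s2, s3, s4, s5⟩ := hs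
  obtain ⟨⟨hb, hd, ha4, hc3, ha2, hc1, hR, hQ, b1, d2, a42, c31, a20, c11⟩, -⟩ := h
  have w := hw.w1 (by norm_num)
  have e0 : (st p 4).c1 = p.a2 + 1 := by simp only [st, push]
  have e1 : (st p 4).a2 = (st p 4).c1 - 2 * p.Q - 1 := by simp only [st, push]
  have e2 : (st p 4).Q = (p.d - (st p 4).a2) / 2 + 1 := by simp only [st, push]
  have e3 : (st p 4).d = p.b + 2 * (st p 4).Q + 1 := by simp only [st, push]
  generalize st p 4 = q at e0 e1 e2 e3 ⊢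
  have f2 : 2 * q.Q = p.d - q.a2 + 2 := by omega
  have rw0 : (p.b : ℝ) = 1 := by exact_mod_cast w
  have r0 : (q.c1 : ℝ) = p.a2 + 1 := by exact_mod_cast e0
  have r1 : (q.a2 : ℝ) = q.c1 - 2 * p.Q - 1 := by exact_mod_cast e1
  have r2 : 2 * (q.Q : ℝ) = p.d - q.a2 + 2 := by exact_mod_cast f2
  have r3 : (q.d : ℝ) = p.b + 2 * q.Q + 1 := by exact_mod_cast e3
  have s3' := s3 le_rfl
  norm_num [al1, al2, al3, al4] at s0 s1 s2 s3'
  refine ⟨?_, ?_, ?_, fun _ => ?_, fun h => by omega, fun h => by omega⟩ <;>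
    norm_num [al1, al2, al3, al4, sJ] <;> linarith

theorem sz5 {p : Par} (h : Good p) (hw : WP 5 p) {X : ℝ} (hX : 3 ≤ X) (hs : SzJ 5 p X) :
    SzJ 5 (st p 5) (sJ 5 * X) := by
  obtain ⟨s0, s1, s2, s3, s4, s5⟩ := hs
  obtain ⟨⟨hb, hd, ha4, hc3, ha2, hc1, hR, hQ, b1, d2, a42, c31, a20, c11⟩, -⟩ := h
  have w := hw.w2 (by norm_num)
  have e0 : (st p 5).c1 = p.a2 + 1 := by simp only [st, push]
  have e1 : (st p 5).a2 = (st p 5).c1 - 2 * p.Q - 1 := by simp only [st, push]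
  have e2 : (st p 5).Q = (p.d - (st p 5).a2) / 2 + 1 := by simp only [st, push]
  have e3 : (st p 5).d = p.b + 2 * (st p 5).Q + 1 := by simp only [st, push]
  have e4 : (st p 5).b = (st p 5).d + 2 * p.R + 1 := by simp only [st, push]
  generalize st p 5 = q at e0 e1 e2 e3 e4 ⊢
  have f2 : 2 * q.Q = p.d - q.a2 + 2 := by omega
  have rw0 : (p.R : ℝ) = 0 := by exact_mod_cast w
  have r0 : (q.c1 : ℝ) = p.a2 + 1 := by exact_mod_cast e0
  have r1 : (q.a2 : ℝ) = q.c1 - 2 * p.Q - 1 := by exact_mod_cast e1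
  have r2 : 2 * (q.Q : ℝ) = p.d - q.a2 + 2 := by exact_mod_cast f2
  have r3 : (q.d : ℝ) = p.b + 2 * q.Q + 1 := by exact_mod_cast e3
  have r4 : (q.b : ℝ) = q.d + 2 * p.R + 1 := by exact_mod_cast e4
  have s3' := s3 (by norm_num)
  have s4' := s4 le_rfl
  norm_num [al1, al2, al3, al4] at s0 s1 s2 s3' s4'
  refine ⟨?_, ?_, ?_, fun _ => ?_, fun _ => ?_, fun h => by omega⟩ <;>
    norm_num [al1, al2, al3, al4, sJ] <;> linarith

theorem sz6 {p : Par} (h : Good p) (hw : WP 6 p) {X : ℝ} (hX : 1 ≤ X) (hs : SzJ 6 p X) :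
    SzJ 6 (st p 6) (sJ 6 * X) := by
  obtain ⟨s0, s1, s2, s3, s4, s5⟩ := hs
  obtain ⟨⟨hb, hd, ha4, hc3, ha2, hc1, hR, hQ, b1, d2, a42, c31, a20, c11⟩, -⟩ := h
  have w := hw.w3
  have e0 : (st p 6).c1 = p.a2 + 1 := by simp only [st, push]
  have e1 : (st p 6).a2 = (st p 6).c1 - 2 * p.Q - 1 := by simp only [st, push]
  have e2 : (st p 6).Q = (p.d - (st p 6).a2) / 2 + 1 := by simp only [st, push]
  have e3 : (st p 6).d = p.b + 2 * (st p 6).Q + 1 := by simp only [st, push]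
  have e4 : (st p 6).b = (st p 6).d + 2 * p.R + 1 := by simp only [st, push]
  have e5 : (st p 6).R = ((st p 6).b - p.c3) / 2 + 1 := by simp only [st, push]
  generalize st p 6 = q at e0 e1 e2 e3 e4 e5 ⊢
  have f2 : 2 * q.Q = p.d - q.a2 + 2 := by omega
  have f5 : 2 * q.R = q.b - p.c3 + 2 := by omega
  have rw0 : (p.c3 : ℝ) = 1 := by exact_mod_cast w
  have r0 : (q.c1 : ℝ) = p.a2 + 1 := by exact_mod_cast e0
  have r1 : (q.a2 : ℝ) = q.c1 - 2 * p.Q - 1 := by exact_mod_cast e1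
  have r2 : 2 * (q.Q : ℝ) = p.d - q.a2 + 2 := by exact_mod_cast f2
  have r3 : (q.d : ℝ) = p.b + 2 * q.Q + 1 := by exact_mod_cast e3
  have r4 : (q.b : ℝ) = q.d + 2 * p.R + 1 := by exact_mod_cast e4
  have r5 : 2 * (q.R : ℝ) = q.b - p.c3 + 2 := by exact_mod_cast f5
  have s3' := s3 (by norm_num)
  have s4' := s4 (by norm_num)
  have s5' := s5 le_rfl
  norm_num [al1, al2, al3, al4] at s0 s1 s2 s3' s4' s5'
  refine ⟨?_, ?_, ?_, fun _ => ?_, fun _ => ?_, fun _ => ?_⟩ <;>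
    norm_num [al1, al2, al3, al4, sJ] <;> linarith

theorem sJ_gt (J : ℕ) : 1 < sJ J := by
  unfold sJ
  split_ifs <;> norm_num

theorem xJ_pos (J : ℕ) : 0 < xJ J := by
  unfold xJ
  split_ifs <;> norm_num

theorem sz_stepJ {J : ℕ} (hJ : 3 ≤ J) (hJ6 : J ≤ 6) {p : Par} (h : Good p) (hw : WP J p) {X : ℝ}
    (hX : xJ J ≤ X) (hs : SzJ J p X) : SzJ J (st p J) (sJ J * X) := by
  interval_cases J
  · exact sz3 h hw (by norm_num [xJ] at hX; exact hX) hs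
  · exact sz4 h hw (by norm_num [xJ] at hX; exact hX) hs
  · exact sz5 h hw (by norm_num [xJ] at hX; exact hX) hs
  · exact sz6 h hw (by norm_num [xJ] at hX; exact hX) hs

/-- the first domain: one vertex -/
def q0 : Par where
  a4 := 2
  c3 := 1
  R := 0
  b := 1
  d := 2
  Q := 0
  a2 := 0
  c1 := 1

theorem good_q0 : Good q0 := by
  refine ⟨?_, ?_, ?_, ?_, ?_, ?_, ?_, ?_, ?_⟩ <;> (try constructor) <;> simp only [q0] <;> omega

theorem wp_q0 (J : ℕ) : WP J q0 := ⟨rfl, rfl, fun _ => rfl, fun _ => rfl, fun _ => rfl⟩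

theorem sz_q0 {J : ℕ} (hJ : 3 ≤ J) (hJ6 : J ≤ 6) : SzJ J q0 (xJ J) := by
  interval_cases J <;> refine ⟨?_, ?_, ?_, fun _ => ?_, fun _ => ?_, fun _ => ?_⟩ <;>
    norm_num [xJ, q0, al1, al2, al3, al4]

/-- the domain after `m` sweeps -/
def domJ (J : ℕ) : ℕ → Par
  | 0 => q0
  | m + 1 => st (domJ J m) J

theorem good_domJ {J : ℕ} (hJ6 : J ≤ 6) (m : ℕ) : Good (domJ J m) := by
  induction m with
  | zero => exact good_q0
  | succ m ih => exact good_st ih J (by omega)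

theorem wp_domJ {J : ℕ} (hJ6 : J ≤ 6) (m : ℕ) : WP J (domJ J m) := by
  induction m with
  | zero => exact wp_q0 J
  | succ m ih => exact wp_st ih hJ6 J le_rfl

theorem sz_domJ {J : ℕ} (hJ : 3 ≤ J) (hJ6 : J ≤ 6) (m : ℕ) :
    SzJ J (domJ J m) (xJ J * sJ J ^ m) := by
  induction m with
  | zero => rw [pow_zero, mul_one]; exact sz_q0 hJ hJ6
  | succ m ih =>
    have h1 : (1 : ℝ) ≤ sJ J ^ m := one_le_pow₀ (sJ_gt J).le
    have h2 := xJ_pos J
    have := sz_stepJ hJ hJ6 (good_domJ hJ6 m) (wp_domJ hJ6 m)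
      (by nlinarith : xJ J ≤ xJ J * sJ J ^ m) ih
    have e : sJ J * (xJ J * sJ J ^ m) = xJ J * sJ J ^ (m + 1) := by rw [pow_succ]; ring
    rw [e] at this
    exact this

theorem om_domJ {J : ℕ} (hJ6 : J ≤ 6) {i j : ℕ} (hij : i ≤ j) (x : V) (hx : Om (domJ J i) x) :
    Om (domJ J j) x := by
  induction j with
  | zero =>
    have : i = 0 := by omega
    subst this
    exact hx
  | succ j ih =>
    rcases Nat.lt_or_ge i (j + 1) with h1 | h1
    · exact om_st (good_domJ hJ6 j) (i := 0) (j := J) (by omega) (by omega) x (ih (by omega))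
    · have : i = j + 1 := by omega
      subst this
      exact hx

/-! ### hexagons -/

/-- the wedge of `60 (J - 2)` degrees -/
def Wg (J : ℕ) (v : V) : Prop :=
  (v.2 = 0 → 1 ≤ v.1) ∧ (1 ≤ v.2 → J = 6 ∧ 1 ≤ v.1 - v.2) ∧ (J ≤ 4 → v.1 + v.2 ≤ 1) ∧
    (J ≤ 3 → v.1 - v.2 ≤ 2)

instance (J : ℕ) : DecidablePred (Wg J) := fun v => by unfold Wg; infer_instance

/-- parameters of the truncated wedges -/
def xPar (J : ℕ) (N : ℤ) : Par :=
  { hexPar N with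
    a4 := 2
    c3 := 1
    R := if J ≤ 5 then 0 else N
    b := if J ≤ 4 then 1 else 2 * N + 1
    d := if J ≤ 3 then 2 else 2 * N }

theorem ok_x (J : ℕ) (N : ℤ) (hN : 1 ≤ N) : Ok (xPar J N) := by
  constructor <;> simp only [xPar, hexPar] <;> (try split_ifs) <;> omega

theorem wp_x (J : ℕ) (hJ6 : J ≤ 6) (N : ℤ) : WP J (xPar J N) := by
  refine ⟨rfl, rfl, fun h => ?_, fun h => ?_, fun h => ?_⟩ <;> simp only [xPar] <;>
    rw [if_pos h]

theorem om_x (J : ℕ) (hJ : 3 ≤ J) (hJ6 : J ≤ 6) (N : ℤ) (hN : 1 ≤ N) (v : V) :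
    Om (xPar J N) v ↔ Wg J v ∧ Hx N v := by
  unfold Om xPar hexPar Wg Hx
  interval_cases J <;> norm_num <;> (rcases lt_trichotomy v.2 0 with c | c | c) <;> omega

theorem x_finite (J : ℕ) (hJ : 3 ≤ J) (hJ6 : J ≤ 6) (N : ℤ) (hN : 1 ≤ N) (v : V)
    (h : Om (xPar J N) v) :
    v ∈ Finset.Icc (-2 * N + 1) (2 * N) ×ˢ Finset.Icc (-N) N := by
  obtain ⟨⟨a, b, c, d⟩, e1, e2, e3, e4, e5, e6⟩ := (om_x J hJ hJ6 N hN v).1 h
  rw [Finset.mem_product, Finset.mem_Icc, Finset.mem_Icc]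
  omega

/-- a small domain is contained in the hexagon -/
theorem sub_x {J : ℕ} (hJ : 3 ≤ J) (hJ6 : J ≤ 6) {p : Par} (hw : WP J p) {X : ℝ} (hX : 0 ≤ X)
    (hs : SzJ J p X) (N : ℤ)
    (hN : (if J = 3 then 2.09 else if J = 4 then 4.335 else if J = 5 then 9.3 else 19.75) * X ≤
      2 * (N : ℝ)) (v : V) (h : Om p v) : Om (xPar J N) v := by
  obtain ⟨s0, s1, s2, s3, s4, s5⟩ := hs
  obtain ⟨w4, w3, w2, w1, w0⟩ := hw
  interval_cases J
  · norm_num [al1, al2, al3, al4] at s0 s1 s2 hN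
    have r0 : -(p.c1 : ℝ) + 2 ≤ 2 * N := by linarith
    have r1 : -(p.a2 : ℝ) + 2 ≤ 2 * N := by linarith
    have r2 : 2 * (p.Q : ℝ) + 2 ≤ 2 * N := by linarith
    have t0 : -p.c1 + 2 ≤ 2 * N := by exact_mod_cast r0
    have t1 : -p.a2 + 2 ≤ 2 * N := by exact_mod_cast r1
    have t2 : 2 * p.Q + 2 ≤ 2 * N := by exact_mod_cast r2
    have u0 := w0 (by norm_num)
    have u1 := w1 (by norm_num)
    have u2 := w2 (by norm_num)
    refine om_mono ?_ ?_ ?_ ?_ ?_ ?_ ?_ ?_ h <;> simp only [xPar, hexPar] <;> norm_num <;> omega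
  · have s3' := s3 le_rfl
    norm_num [al1, al2, al3, al4] at s0 s1 s2 s3' hN
    have r0 : -(p.c1 : ℝ) + 2 ≤ 2 * N := by linarith
    have r1 : -(p.a2 : ℝ) + 2 ≤ 2 * N := by linarith
    have r2 : 2 * (p.Q : ℝ) + 2 ≤ 2 * N := by linarith
    have r3 : (p.d : ℝ) + 2 ≤ 2 * N := by linarith
    have t0 : -p.c1 + 2 ≤ 2 * N := by exact_mod_cast r0
    have t1 : -p.a2 + 2 ≤ 2 * N := by exact_mod_cast r1
    have t2 : 2 * p.Q + 2 ≤ 2 * N := by exact_mod_cast r2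
    have t3 : p.d + 2 ≤ 2 * N := by exact_mod_cast r3
    have u1 := w1 (by norm_num)
    have u2 := w2 (by norm_num)
    refine om_mono ?_ ?_ ?_ ?_ ?_ ?_ ?_ ?_ h <;> simp only [xPar, hexPar] <;> norm_num <;> omega
  · have s3' := s3 (by norm_num)
    have s4' := s4 le_rfl
    norm_num [al1, al2, al3, al4] at s0 s1 s2 s3' s4' hN
    have r0 : -(p.c1 : ℝ) + 2 ≤ 2 * N := by linarith
    have r1 : -(p.a2 : ℝ) + 2 ≤ 2 * N := by linarith
    have r2 : 2 * (p.Q : ℝ) + 2 ≤ 2 * N := by linarith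
    have r3 : (p.d : ℝ) + 2 ≤ 2 * N := by linarith
    have r4 : (p.b : ℝ) + 2 ≤ 2 * N := by linarith
    have t0 : -p.c1 + 2 ≤ 2 * N := by exact_mod_cast r0
    have t1 : -p.a2 + 2 ≤ 2 * N := by exact_mod_cast r1
    have t2 : 2 * p.Q + 2 ≤ 2 * N := by exact_mod_cast r2
    have t3 : p.d + 2 ≤ 2 * N := by exact_mod_cast r3
    have t4 : p.b + 2 ≤ 2 * N := by exact_mod_cast r4
    have u2 := w2 (by norm_num)
    refine om_mono ?_ ?_ ?_ ?_ ?_ ?_ ?_ ?_ h <;> simp only [xPar, hexPar] <;> norm_num <;> omega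
  · have s3' := s3 (by norm_num)
    have s4' := s4 (by norm_num)
    have s5' := s5 le_rfl
    norm_num [al1, al2, al3, al4] at s0 s1 s2 s3' s4' s5' hN
    have r0 : -(p.c1 : ℝ) + 2 ≤ 2 * N := by linarith
    have r1 : -(p.a2 : ℝ) + 2 ≤ 2 * N := by linarith
    have r2 : 2 * (p.Q : ℝ) + 2 ≤ 2 * N := by linarith
    have r3 : (p.d : ℝ) + 2 ≤ 2 * N := by linarith
    have r4 : (p.b : ℝ) + 2 ≤ 2 * N := by linarith
    have r5 : 2 * (p.R : ℝ) + 2 ≤ 2 * N := by linarith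
    have t0 : -p.c1 + 2 ≤ 2 * N := by exact_mod_cast r0
    have t1 : -p.a2 + 2 ≤ 2 * N := by exact_mod_cast r1
    have t2 : 2 * p.Q + 2 ≤ 2 * N := by exact_mod_cast r2
    have t3 : p.d + 2 ≤ 2 * N := by exact_mod_cast r3
    have t4 : p.b + 2 ≤ 2 * N := by exact_mod_cast r4
    have t5 : 2 * p.R + 2 ≤ 2 * N := by exact_mod_cast r5
    refine om_mono ?_ ?_ ?_ ?_ ?_ ?_ ?_ ?_ h <;> simp only [xPar, hexPar] <;> norm_num <;> omega

end Pool.Agent.TH232.WX
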