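import Pool.Agent.TH232.Hex.Push
import Pool.Agent.H978R3.Wedge.Sums

set_option autoImplicit false

/-! Upper potentials in wedges of `60 (J - 2)` degrees, `J = 3, 4, 5, 6`: the sides
`-3, …, J - 4` are pushed outwards. -/

namespace Pool.Agent.TH232.WX

open H978R2.Hex H978R3.Wedge Pool.Agent.TH232.Hex Complex

/-- one push of the side `k0`, upper bound -/
theorem pot_up (M M' : ℤ → ℝ) (k0 : ℤ) (A B : ℝ) (w w' : ℤ → ℝ)
    (h : ∑ k ∈ Finset.Icc (-4 : ℤ) 5, exp ((k : ℂ) * (Real.pi / 8) * I) * (M k : ℂ) = 1)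
    (h' : ∑ k ∈ Finset.Icc (-4 : ℤ) 5, exp ((k : ℂ) * (Real.pi / 8) * I) * (M' k : ℂ) = 1)
    (mono : ∀ k ∈ Finset.Icc (-4 : ℤ) 5, k ≠ k0 → M k ≤ M' k) (hz : M' k0 = 0) (hM : 0 ≤ M k0)
    (hw : ∀ k ∈ Finset.Icc (-4 : ℤ) 5, k ≠ k0 → w' k = w k ∧
      (w k ≤ F A B k ∨ (w k = 0 ∧ M' k ≤ M k)))
    (h0 : F A B k0 ≤ w k0) :
    ∑ k ∈ Finset.Icc (-4 : ℤ) 5, w' k * M' k ≤ ∑ k ∈ Finset.Icc (-4 : ℤ) 5, w k * M k := by
  have h1 := sum_F M A B h
  have h2 := sum_F M' A B h'
  have h3 : ∑ k ∈ Finset.Icc (-4 : ℤ) 5, w' k * M' k ≤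
      ∑ k ∈ Finset.Icc (-4 : ℤ) 5, (w k * M k + (F A B k * M' k - F A B k * M k)) := by
    apply Finset.sum_le_sum
    intro k hk
    by_cases hk0 : k = k0
    · subst hk0
      rw [hz]
      nlinarith
    · obtain ⟨a, b⟩ := hw k hk hk0
      have c := mono k hk hk0
      rw [a]
      rcases b with b | ⟨b1, b2⟩
      · nlinarith
      · have e : M' k = M k := le_antisymm b2 c
        rw [e, b1]
        simp
  rw [Finset.sum_add_distrib, Finset.sum_sub_distrib, h1, h2] at h3
  linarith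

/-! ### data -/

/-- the factor of the potential in one sweep -/
noncomputable def gJ (J : ℕ) : ℝ :=
  if J = 3 then 0.5867 else if J = 4 then 0.7675 else if J = 5 then 0.8794 else 0.9517

/-- the weights of the sides -/
noncomputable def vJ (J : ℕ) (k : ℤ) : ℝ :=
  if J = 3 then
    (if k = -3 then 541618 else if k = -2 then 1000000 else if k = -1 then 923160 else 0)
  else if J = 4 then
    (if k = -3 then 474341 else if k = -2 then 876071 else if k = -1 then 1000000 else
      if k = 0 then 705461 else 0)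
  else if J = 5 then
    (if k = -3 then 439700 else if k = -2 then 812127 else if k = -1 then 1000000 else
      if k = 0 then 923501 else if k = 1 then 568569 else 0)
  else
    (if k = -3 then 413191 else if k = -2 then 763204 else if k = -1 then 975551 else
      if k = 0 then 1000000 else if k = 1 then 822036 else if k = 2 then 467628 else 0)

/-- the certificates -/
noncomputable def cAJ (J i : ℕ) : ℝ :=
  if J = 3 then (if i = 0 then 1414297 else if i = 1 then 706842 else 345)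
  else if J = 4 then (if i = 0 then 1238994 else if i = 1 then 972231 else
    if i = 2 then 705679 else 705308)
  else if J = 5 then (if i = 0 then 1148557 else if i = 1 then 1036087 else
    if i = 2 then 923698 else if i = 3 then 923319 else 1050261)
  else (if i = 0 then 1079363 else if i = 1 then 1039753 else if i = 2 then 1000168 else
    if i = 3 then 999828 else if i = 4 then 1050893 else 1128612)

noncomputable def cBJ (J i : ℕ) : ℝ :=
  if J = 3 then (if i = 0 then -203 else if i = 1 then -706842 else -2410597)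
  else if J = 4 then (if i = 0 then -103 else if i = 1 then -266450 else
    if i = 2 then -908898 else -1702362)
  else if J = 5 then (if i = 0 then -86 else if i = 1 then -112208 else
    if i = 2 then -382608 else if i = 3 then -742872 else -1050103)
  else (if i = 0 then -71 else if i = 1 then -39395 else if i = 2 then -134181 else
    if i = 3 then -265266 else if i = 4 then -389367 else -467400)

/-- the weights after the sides `-3, …, i - 4` have been pushed -/
noncomputable def wJ (J i : ℕ) (k : ℤ) : ℝ := if k < (i : ℤ) - 3 then vJ J k / gJ J else vJ J k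

theorem vJ_near (J : ℕ) (k : ℤ) (hk : k ≤ -4 ∨ (J : ℤ) - 3 ≤ k) (hJ : 3 ≤ J) (hJ6 : J ≤ 6) :
    vJ J k = 0 := by
  unfold vJ
  rcases hk with hk | hk
  · have n3 : k ≠ -3 := by omega
    have n2 : k ≠ -2 := by omega
    have n1 : k ≠ -1 := by omega
    have n0 : k ≠ 0 := by omega
    have p1 : k ≠ 1 := by omega
    have p2 : k ≠ 2 := by omega
    simp [n3, n2, n1, n0, p1, p2]
  · have n3 : k ≠ -3 := by omega
    have n2 : k ≠ -2 := by omega
    have n1 : k ≠ -1 := by omega
    interval_cases J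
    · simp [n3, n2, n1]
    · have n0 : k ≠ 0 := by push_cast at hk; omega
      simp [n3, n2, n1, n0]
    · have n0 : k ≠ 0 := by push_cast at hk; omega
      have p1 : k ≠ 1 := by push_cast at hk; omega
      simp [n3, n2, n1, n0, p1]
    · have n0 : k ≠ 0 := by push_cast at hk; omega
      have p1 : k ≠ 1 := by push_cast at hk; omega
      have p2 : k ≠ 2 := by push_cast at hk; omega
      simp [n3, n2, n1, n0, p1, p2]

theorem vJ_nonneg (J : ℕ) (k : ℤ) : 0 ≤ vJ J k := by
  unfold vJ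
  split_ifs <;> norm_num

theorem gJ_pos (J : ℕ) : 0 < gJ J := by
  unfold gJ
  split_ifs <;> norm_num

theorem wJ_zero (J : ℕ) (hJ : 3 ≤ J) (hJ6 : J ≤ 6) (k : ℤ) (hk : k ∈ Finset.Icc (-4 : ℤ) 5) :
    wJ J 0 k = vJ J k := by
  unfold wJ
  rw [Finset.mem_Icc] at hk
  split_ifs with h
  · rw [vJ_near J k (Or.inl (by push_cast at h; omega)) hJ hJ6]
    simp
  · rfl

theorem wJ_last (J : ℕ) (hJ : 3 ≤ J) (hJ6 : J ≤ 6) (k : ℤ) :
    wJ J J k = vJ J k / gJ J := by
  unfold wJ
  split_ifs with h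
  · rfl
  · rw [vJ_near J k (Or.inr (by omega)) hJ hJ6]
    simp

theorem wJ_succ (J i : ℕ) (k : ℤ) (hk : k ≠ (i : ℤ) - 3) : wJ J (i + 1) k = wJ J i k := by
  unfold wJ
  push_cast
  by_cases h : k < (i : ℤ) - 3
  · rw [if_pos h, if_pos (by omega)]
  · rw [if_neg h, if_neg (by omega)]

set_option maxHeartbeats 8000000 in
theorem certJ (J : ℕ) (hJ : 3 ≤ J) (hJ6 : J ≤ 6) (i : ℕ) (hi : i < J) (k : ℤ)
    (hk : -4 ≤ k) (hk2 : k ≤ (J : ℤ) - 3) :
    (k ≠ (i : ℤ) - 3 → wJ J i k ≤ F (cAJ J i) (cBJ J i) k) ∧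
    (k = (i : ℤ) - 3 → F (cAJ J i) (cBJ J i) k ≤ wJ J i k) := by
  have a1 := r2_gt
  have a2 := r2_lt
  have a3 := s8_gt
  have a4 := s8_lt
  have a5 := c8_gt
  have a6 := c8_lt
  obtain ⟨r, hr⟩ : ∃ r, r = Real.sqrt 2 / 2 := ⟨_, rfl⟩
  obtain ⟨s, hs⟩ : ∃ s, s = Real.sin (Real.pi / 8) := ⟨_, rfl⟩
  obtain ⟨c, hc⟩ : ∃ c, c = Real.cos (Real.pi / 8) := ⟨_, rfl⟩
  rw [← hr] at a1 a2
  rw [← hs] at a3 a4
  rw [← hc] at a5 a6
  interval_cases J <;> interval_cases i <;> push_cast at hk2 <;> norm_num at hk2 <;>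
    interval_cases k <;>
    simp only [F_m4, F_m3, F_m2, F_m1, F_0, F_1, F_2, F_3, F_4, F_5, ← hr, ← hs, ← hc, cAJ, cBJ] <;>
    constructor <;> intro hne <;> norm_num at hne <;>
    norm_num [wJ, vJ, gJ] <;> linarith

end Pool.Agent.TH232.WX
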